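import Mathlib

set_option autoImplicit false

namespace Pool.Agent.H946.Gcr

open Finset

/-- A Vandermonde step over the additive group `ZMod n`. -/
lemma vander {n : ℕ} [NeZero n] (l : ℕ) (B : Finset (ZMod n)) (c : ZMod n → ℂ)
    (hB : B.card ≤ n - l) (hc : ∀ b, b ∉ B → c b = 0)
    (h : ∀ t : ℕ, l ≤ t → t < n → ∑ b, c b * (ZMod.stdAddChar b) ^ t = 0) :
    ∀ b, c b = 0 := by
  classical
  intro b0
  by_cases hb0 : b0 ∈ B
  swap
  · exact hc b0 hb0
  set x : ZMod n → ℂ := fun b => ZMod.stdAddChar b with hx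
  have hxinj : Function.Injective x := ZMod.injective_stdAddChar
  set L : Polynomial ℂ := ∏ b ∈ B.erase b0, (Polynomial.X - Polynomial.C (x b)) with hL
  have hdeg : L.natDegree < n - l := by
    have h1 : L.natDegree = (B.erase b0).card := by
      rw [hL, Polynomial.natDegree_prod_of_monic _ _ (fun b _ => Polynomial.monic_X_sub_C _)]
      simp
    have h2 : (B.erase b0).card + 1 = B.card := Finset.card_erase_add_one hb0
    omega
  have key : ∑ b, c b * (x b) ^ l * L.eval (x b) = 0 := by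
    have : ∀ b, c b * (x b) ^ l * L.eval (x b)
        = ∑ k ∈ Finset.range (n - l), L.coeff k * (c b * (x b) ^ (l + k)) := by
      intro b
      rw [Polynomial.eval_eq_sum_range' hdeg, Finset.mul_sum]
      refine Finset.sum_congr rfl fun k _ => ?_
      rw [pow_add]; ring
    simp_rw [this]
    rw [Finset.sum_comm]
    refine Finset.sum_eq_zero fun k hk => ?_
    rw [← Finset.mul_sum]
    have := h (l + k) (by omega) (by have := Finset.mem_range.1 hk; omega)
    rw [this, mul_zero]
  have hsum : ∑ b, c b * (x b) ^ l * L.eval (x b) = c b0 * (x b0) ^ l * L.eval (x b0) := by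
    refine Finset.sum_eq_single b0 ?_ (by simp)
    intro b _ hb
    by_cases hbB : b ∈ B
    · have : L.eval (x b) = 0 := by
        rw [hL, Polynomial.eval_prod]
        refine Finset.prod_eq_zero (Finset.mem_erase.2 ⟨hb, hbB⟩) ?_
        simp
      rw [this, mul_zero]
    · rw [hc b hbB]; ring
  rw [hsum] at key
  have hLne : L.eval (x b0) ≠ 0 := by
    rw [hL, Polynomial.eval_prod]
    refine Finset.prod_ne_zero_iff.2 fun b hb => ?_
    have : b ≠ b0 := (Finset.mem_erase.1 hb).1
    simp only [Polynomial.eval_sub, Polynomial.eval_X, Polynomial.eval_C]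
    intro h0
    exact this (hxinj (sub_eq_zero.1 h0).symm)
  have hxne : x b0 ≠ 0 := by
    intro h0
    have h1 : x b0 * x (-b0) = 1 := by
      simp only [hx]
      rw [← AddChar.map_add_eq_mul, add_neg_cancel, AddChar.map_zero_eq_one]
    rw [h0, zero_mul] at h1
    exact zero_ne_one h1
  rcases mul_eq_zero.1 key with h1 | h1
  · rcases mul_eq_zero.1 h1 with h2 | h2
    · exact h2
    · exact absurd h2 (pow_ne_zero _ hxne)
  · exact absurd h1 hLne

/-- Orthogonality. -/
lemma orth {n : ℕ} [NeZero n] (x : ZMod n) :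
    ∑ b : ZMod n, (ZMod.stdAddChar (b * x) : ℂ) = if x = 0 then (n : ℂ) else 0 := by
  have := AddChar.sum_mulShift (R := ZMod n) (R' := ℂ) x (ZMod.isPrimitive_stdAddChar n)
  rw [this]
  split_ifs <;> simp [ZMod.card]

/-- The two-dimensional Fourier argument. -/
lemma fourier {n : ℕ} [NeZero n] (l : ℕ) (E F : Finset (ZMod n))
    (hEF : ∀ s : ZMod n, (F.filter (fun b => s - b ∈ E)).card ≤ n - l)
    (S : ZMod n → ZMod n → ℂ)
    (hS : ∀ i j : ZMod n, ¬ (j - i).val < l → S i j = 0)
    (h1 : ∀ a, a ∉ E → ∀ j, ∑ i, (ZMod.stdAddChar (-(a * i)) : ℂ) * S i j = 0)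
    (h2 : ∀ b, b ∉ F → ∀ i, ∑ j, (ZMod.stdAddChar (-(b * j)) : ℂ) * S i j = 0) :
    ∀ i j, S i j = 0 := by
  classical
  set T : ZMod n → ZMod n → ℂ := fun a b =>
    ∑ i, ∑ j, (ZMod.stdAddChar (-(a * i)) : ℂ) * (ZMod.stdAddChar (-(b * j)) : ℂ) * S i j with hT
  have hTa : ∀ a b, a ∉ E → T a b = 0 := by
    intro a b ha
    simp only [hT]
    rw [Finset.sum_comm]
    refine Finset.sum_eq_zero fun j _ => ?_
    have : ∀ i, (ZMod.stdAddChar (-(a * i)) : ℂ) * (ZMod.stdAddChar (-(b * j)) : ℂ) * S i j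
        = (ZMod.stdAddChar (-(b * j)) : ℂ) * ((ZMod.stdAddChar (-(a * i)) : ℂ) * S i j) := by
      intro i; ring
    simp_rw [this]
    rw [← Finset.mul_sum, h1 a ha j, mul_zero]
  have hTb : ∀ a b, b ∉ F → T a b = 0 := by
    intro a b hb
    simp only [hT]
    refine Finset.sum_eq_zero fun i _ => ?_
    have : ∀ j, (ZMod.stdAddChar (-(a * i)) : ℂ) * (ZMod.stdAddChar (-(b * j)) : ℂ) * S i j
        = (ZMod.stdAddChar (-(a * i)) : ℂ) * ((ZMod.stdAddChar (-(b * j)) : ℂ) * S i j) := by
      intro j; ring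
    simp_rw [this]
    rw [← Finset.mul_sum, h2 b hb i, mul_zero]
  -- diagonal sums vanish
  have hdiag : ∀ s : ZMod n, ∀ t : ℕ, l ≤ t → t < n →
      ∑ b, T (s - b) b * (ZMod.stdAddChar b : ℂ) ^ t = 0 := by
    intro s t hlt htn
    have e1 : ∀ b, T (s - b) b * (ZMod.stdAddChar b : ℂ) ^ t
        = ∑ i, ∑ j, (ZMod.stdAddChar (b * (i - j + (t : ZMod n))) : ℂ)
            * ((ZMod.stdAddChar (-(s * i)) : ℂ) * S i j) := by
      intro b
      simp only [hT]
      rw [Finset.sum_mul]
      refine Finset.sum_congr rfl fun i _ => ?_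
      rw [Finset.sum_mul]
      refine Finset.sum_congr rfl fun j _ => ?_
      rw [← AddChar.map_nsmul_eq_pow]
      have e2 : (ZMod.stdAddChar (b * (i - j + (t : ZMod n))) : ℂ) * (ZMod.stdAddChar (-(s * i)) : ℂ)
          = (ZMod.stdAddChar (-((s - b) * i)) : ℂ) * (ZMod.stdAddChar (-(b * j)) : ℂ)
            * (ZMod.stdAddChar (t • b) : ℂ) := by
        rw [← AddChar.map_add_eq_mul, ← AddChar.map_add_eq_mul, ← AddChar.map_add_eq_mul]
        congr 1
        rw [nsmul_eq_mul]; ring
      rw [← mul_assoc, e2]; ring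
    simp_rw [e1]
    rw [Finset.sum_comm]
    refine Finset.sum_eq_zero fun i _ => ?_
    rw [Finset.sum_comm]
    refine Finset.sum_eq_zero fun j _ => ?_
    rw [← Finset.sum_mul, orth]
    split_ifs with hz
    · have hj : j = i + (t : ZMod n) := by
        have : i - j + (t : ZMod n) + j = j := by rw [hz, zero_add]
        rw [← this]; ring
      have hval : (j - i).val = t := by
        rw [hj, add_sub_cancel_left, ZMod.val_natCast_of_lt htn]
      rw [hS i j (by rw [hval]; omega)]
      ring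
    · ring
  have hT0 : ∀ a b, T a b = 0 := by
    intro a b
    have := vander l (F.filter (fun b' => (a + b) - b' ∈ E)) (fun b' => T ((a + b) - b') b')
      (hEF (a + b)) (by
        intro b' hb'
        by_cases hF : b' ∈ F
        · refine hTa _ _ ?_
          intro hE
          exact hb' (Finset.mem_filter.2 ⟨hF, hE⟩)
        · exact hTb _ _ hF) (fun t h1 h2 => hdiag (a + b) t h1 h2) b
    simpa using this
  intro i0 j0
  have inv : ∑ a, ∑ b, (ZMod.stdAddChar (a * i0) : ℂ) * (ZMod.stdAddChar (b * j0) : ℂ) * T a b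
      = (n : ℂ) * (n : ℂ) * S i0 j0 := by
    have e1 : ∀ a b, (ZMod.stdAddChar (a * i0) : ℂ) * (ZMod.stdAddChar (b * j0) : ℂ) * T a b
        = ∑ i, ∑ j, (ZMod.stdAddChar (a * (i0 - i)) : ℂ) *
            ((ZMod.stdAddChar (b * (j0 - j)) : ℂ) * S i j) := by
      intro a b
      simp only [hT]
      rw [Finset.mul_sum]
      refine Finset.sum_congr rfl fun i _ => ?_
      rw [Finset.mul_sum]
      refine Finset.sum_congr rfl fun j _ => ?_
      have e2 : (ZMod.stdAddChar (a * (i0 - i)) : ℂ) = (ZMod.stdAddChar (a * i0) : ℂ)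
          * (ZMod.stdAddChar (-(a * i)) : ℂ) := by
        rw [← AddChar.map_add_eq_mul]; congr 1; ring
      have e3 : (ZMod.stdAddChar (b * (j0 - j)) : ℂ) = (ZMod.stdAddChar (b * j0) : ℂ)
          * (ZMod.stdAddChar (-(b * j)) : ℂ) := by
        rw [← AddChar.map_add_eq_mul]; congr 1; ring
      rw [e2, e3]; ring
    simp_rw [e1]
    -- sum over a, b, i, j
    have e4 : ∑ a, ∑ b, ∑ i, ∑ j, (ZMod.stdAddChar (a * (i0 - i)) : ℂ) *
            ((ZMod.stdAddChar (b * (j0 - j)) : ℂ) * S i j)
        = ∑ i, ∑ j, (∑ a, (ZMod.stdAddChar (a * (i0 - i)) : ℂ)) *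
            ((∑ b, (ZMod.stdAddChar (b * (j0 - j)) : ℂ)) * S i j) := by
      have f1 : ∀ a, ∑ b, ∑ i, ∑ j, (ZMod.stdAddChar (a * (i0 - i)) : ℂ) *
            ((ZMod.stdAddChar (b * (j0 - j)) : ℂ) * S i j)
          = ∑ i, ∑ j, (ZMod.stdAddChar (a * (i0 - i)) : ℂ) *
            ((∑ b, (ZMod.stdAddChar (b * (j0 - j)) : ℂ)) * S i j) := by
        intro a
        rw [Finset.sum_comm]
        refine Finset.sum_congr rfl fun i _ => ?_
        rw [Finset.sum_comm]
        refine Finset.sum_congr rfl fun j _ => ?_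
        rw [Finset.sum_mul, Finset.mul_sum]
      simp_rw [f1]
      rw [Finset.sum_comm]
      refine Finset.sum_congr rfl fun i _ => ?_
      rw [Finset.sum_comm]
      refine Finset.sum_congr rfl fun j _ => ?_
      rw [← Finset.sum_mul]
    rw [e4]
    rw [Finset.sum_eq_single i0]
    · rw [Finset.sum_eq_single j0]
      · rw [orth, orth]; simp [mul_assoc]
      · intro j _ hj
        rw [orth (j0 - j), if_neg (by intro h; exact hj (sub_eq_zero.1 h).symm)]
        ring
      · intro h; exact absurd (Finset.mem_univ _) h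
    · intro i _ hi
      refine Finset.sum_eq_zero fun j _ => ?_
      rw [orth (i0 - i), if_neg (by intro h; exact hi (sub_eq_zero.1 h).symm)]
      ring
    · intro h; exact absurd (Finset.mem_univ _) h
  simp_rw [hT0] at inv
  simp only [mul_zero, Finset.sum_const_zero] at inv
  have hn : (n : ℂ) ≠ 0 := Nat.cast_ne_zero.2 (NeZero.ne n)
  rcases mul_eq_zero.1 inv.symm with h | h
  · exact absurd h (mul_ne_zero hn hn)
  · exact h

end Pool.Agent.H946.Gcr
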