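import Mathlib

set_option autoImplicit false

namespace Pool.Agent.H946.Gcr

open Finset

/-- A finite set of integers with pairwise differences less than `w` has at most `w` elements. -/
lemma card_le_of_diff (w : ℕ) (A : Finset ℤ) (h : ∀ x ∈ A, ∀ y ∈ A, x - y < (w : ℤ)) :
    A.card ≤ w := by
  rcases A.eq_empty_or_nonempty with rfl | hne
  · simp
  · set a := A.min' hne with ha
    have hsub : A ⊆ Finset.Ico a (a + w) := by
      intro x hx
      rw [Finset.mem_Ico]
      refine ⟨Finset.min'_le A x hx, ?_⟩
      have := h x hx a (Finset.min'_mem A hne)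
      omega
    have := Finset.card_le_card hsub
    simpa using this

/-- A finite set of cardinality at most `r` is covered by a function on `Fin r`. -/
lemma exists_cover {α : Type*} [Nonempty α] (s : Finset α) (r : ℕ) (h : s.card ≤ r) :
    ∃ β : Fin r → α, ∀ b ∈ s, ∃ k, β k = b := by
  classical
  let e := s.equivFin
  refine ⟨fun k => if hk : (k : ℕ) < s.card then (e.symm ⟨k, hk⟩ : α) else Classical.arbitrary α, ?_⟩
  intro b hb
  refine ⟨⟨(e ⟨b, hb⟩ : ℕ), lt_of_lt_of_le (e ⟨b, hb⟩).2 h⟩, ?_⟩
  simp

/-- The two sets: an interval and a balanced set. -/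
lemma exists_sets (n m w : ℕ) [NeZero n] (hm : m ≤ n) (hmw : m * m ≤ n * w) :
    ∃ E F : Finset (ZMod n), Eᶜ.card ≤ n - m ∧ Fᶜ.card ≤ n - m ∧
      ∀ s : ZMod n, (F.filter (fun b => s - b ∈ E)).card ≤ w := by
  classical
  have hn : 0 < n := Nat.pos_of_ne_zero (NeZero.ne n)
  -- the floor sequence
  set f : ℕ → ℕ := fun q => q * n / m with hf
  have hflt : ∀ q, q < m → f q < n := by
    intro q hq
    have hm0 : 0 < m := by omega
    rw [hf]
    simp only
    rw [Nat.div_lt_iff_lt_mul hm0]
    rw [mul_comm n m]
    exact Nat.mul_lt_mul_of_pos_right hq hn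
  have hfle : ∀ q, f q * m ≤ q * n := fun q => Nat.div_mul_le_self _ _
  have hfgt : ∀ q, 0 < m → q * n < (f q + 1) * m := by
    intro q hm0
    have := Nat.lt_succ_self (q * n / m)
    rw [Nat.div_lt_iff_lt_mul hm0] at this
    exact this
  have hfinj : ∀ q q', q < m → q' < m → f q = f q' → q = q' := by
    intro q q' hq hq' h
    have hm0 : 0 < m := by omega
    by_contra hne
    have a1 := hfle q
    have a2 := hfgt q hm0
    have b1 := hfle q'
    have b2 := hfgt q' hm0
    rw [h] at a1 a2
    rcases Nat.lt_or_gt_of_ne hne with h1 | h1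
    · -- q < q' : q' n ≥ (q+1) n = q n + n ≥ q n + m
      have : (q + 1) * n ≤ q' * n := Nat.mul_le_mul_right _ h1
      nlinarith
    · have : (q' + 1) * n ≤ q * n := Nat.mul_le_mul_right _ h1
      nlinarith
  let E : Finset (ZMod n) := Finset.univ.filter (fun a => a.val < m)
  let F : Finset (ZMod n) := (Finset.range m).image (fun q => ((f q : ℕ) : ZMod n))
  have hFcard : F.card = m := by
    have : F.card = (Finset.range m).card := by
      refine Finset.card_image_of_injOn ?_
      intro q hq q' hq' h
      have hq1 : q < m := Finset.mem_range.1 (Finset.mem_coe.1 hq)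
      have hq1' : q' < m := Finset.mem_range.1 (Finset.mem_coe.1 hq')
      have h2 := congrArg ZMod.val h
      simp only at h2
      rw [ZMod.val_natCast_of_lt (hflt q hq1), ZMod.val_natCast_of_lt (hflt q' hq1')] at h2
      exact hfinj q q' hq1 hq1' h2
    rw [this, Finset.card_range]
  have hEcard : m ≤ E.card := by
    have h1 : ((Finset.range m).image (fun q => ((q : ℕ) : ZMod n))).card = m := by
      have : ((Finset.range m).image (fun q => ((q : ℕ) : ZMod n))).card = (Finset.range m).card := by
        refine Finset.card_image_of_injOn ?_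
        intro q hq q' hq' h
        have hq1 : q < m := Finset.mem_range.1 (Finset.mem_coe.1 hq)
        have hq1' : q' < m := Finset.mem_range.1 (Finset.mem_coe.1 hq')
        have h2 := congrArg ZMod.val h
        simp only at h2
        rw [ZMod.val_natCast_of_lt (lt_of_lt_of_le hq1 hm),
          ZMod.val_natCast_of_lt (lt_of_lt_of_le hq1' hm)] at h2
        exact h2
      rw [this, Finset.card_range]
    rw [← h1]
    refine Finset.card_le_card ?_
    intro a ha
    rw [Finset.mem_image] at ha
    obtain ⟨q, hq, rfl⟩ := ha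
    have hq1 : q < m := Finset.mem_range.1 hq
    refine Finset.mem_filter.2 ⟨Finset.mem_univ _, ?_⟩
    rw [ZMod.val_natCast_of_lt (lt_of_lt_of_le hq1 hm)]
    exact hq1
  refine ⟨E, F, ?_, ?_, ?_⟩
  · rw [Finset.card_compl, ZMod.card]; omega
  · rw [Finset.card_compl, ZMod.card]; omega
  intro s
  -- index set
  set Q : Finset ℕ := (Finset.range m).filter (fun q => s - ((f q : ℕ) : ZMod n) ∈ E) with hQ
  have hcard : (F.filter (fun b => s - b ∈ E)).card ≤ Q.card := by
    have hsub : F.filter (fun b => s - b ∈ E) ⊆ Q.image (fun q => ((f q : ℕ) : ZMod n)) := by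
      intro b hb
      obtain ⟨hbF, hbE⟩ := Finset.mem_filter.1 hb
      obtain ⟨q, hq, rfl⟩ := Finset.mem_image.1 hbF
      exact Finset.mem_image.2 ⟨q, Finset.mem_filter.2 ⟨hq, hbE⟩, rfl⟩
    exact (Finset.card_le_card hsub).trans Finset.card_image_le
  refine hcard.trans ?_
  -- the injection to the integers
  set g : ℕ → ℤ := fun q => if f q ≤ s.val then (q : ℤ) else (q : ℤ) - m with hg
  have hginj : Set.InjOn g (Q : Set ℕ) := by
    intro q hq q' hq' h
    have hq1 : q < m := Finset.mem_range.1 (Finset.mem_filter.1 (Finset.mem_coe.1 hq)).1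
    have hq1' : q' < m := Finset.mem_range.1 (Finset.mem_filter.1 (Finset.mem_coe.1 hq')).1
    simp only [hg] at h
    split_ifs at h <;> omega
  -- bounds: (s - m + 1) m ≤ g q * n < (s + 1) m
  have hbound : ∀ q ∈ Q, ((s.val : ℤ) - m + 1) * m ≤ g q * n ∧ g q * n < ((s.val : ℤ) + 1) * m := by
    intro q hq
    obtain ⟨hqr, hqE⟩ := Finset.mem_filter.1 hq
    have hq1 : q < m := Finset.mem_range.1 hqr
    have hm0 : 0 < m := by omega
    have hqE' : (s - ((f q : ℕ) : ZMod n)).val < m := (Finset.mem_filter.1 hqE).2
    have hfl := hflt q hq1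
    have hsl : s.val < n := ZMod.val_lt s
    have a1 : ((f q : ℤ)) * m ≤ q * n := by exact_mod_cast hfle q
    have a2 : (q : ℤ) * n < ((f q : ℤ) + 1) * m := by exact_mod_cast hfgt q hm0
    have hm0' : (0 : ℤ) < m := by exact_mod_cast hm0
    have hn0' : (0 : ℤ) < n := by exact_mod_cast hn
    by_cases hc : f q ≤ s.val
    · have hval : (s - ((f q : ℕ) : ZMod n)).val = s.val - f q := by
        have : s - ((f q : ℕ) : ZMod n) = ((s.val - f q : ℕ) : ZMod n) := by
          rw [Nat.cast_sub hc, ZMod.natCast_zmod_val]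
        rw [this, ZMod.val_natCast_of_lt (by omega)]
      rw [hval] at hqE'
      have h3 : (s.val : ℤ) - m + 1 ≤ f q := by omega
      have h4 : (f q : ℤ) ≤ s.val := by exact_mod_cast hc
      simp only [hg, if_pos hc]
      constructor
      · nlinarith
      · nlinarith
    · have hc' : s.val < f q := not_le.1 hc
      have hval : (s - ((f q : ℕ) : ZMod n)).val = s.val + n - f q := by
        have : s - ((f q : ℕ) : ZMod n) = ((s.val + n - f q : ℕ) : ZMod n) := by
          rw [Nat.cast_sub (by omega), Nat.cast_add, ZMod.natCast_zmod_val, ZMod.natCast_self, add_zero]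
        rw [this, ZMod.val_natCast_of_lt (by omega)]
      rw [hval] at hqE'
      have h3 : (s.val : ℤ) + n - m + 1 ≤ f q := by omega
      have h4 : (f q : ℤ) ≤ (s.val : ℤ) + n := by omega
      simp only [hg, if_neg hc]
      constructor
      · nlinarith
      · nlinarith
  have himg : (Q.image g).card ≤ w := by
    refine card_le_of_diff w _ ?_
    intro x hx y hy
    obtain ⟨q, hq, rfl⟩ := Finset.mem_image.1 hx
    obtain ⟨q', hq', rfl⟩ := Finset.mem_image.1 hy
    have b1 := (hbound q hq).2
    have b2 := (hbound q' hq').1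
    have hmw' : (m : ℤ) * m ≤ n * w := by exact_mod_cast hmw
    have hn0' : (0 : ℤ) < n := by exact_mod_cast hn
    have : (g q - g q') * n < w * n := by nlinarith
    exact lt_of_mul_lt_mul_right this hn0'.le
  rw [Finset.card_image_of_injOn hginj] at himg
  exact himg

end Pool.Agent.H946.Gcr
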