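import Mathlib
import Pool.Agent.H946.GcrA
import Pool.Agent.H946.GcrB

set_option autoImplicit false

namespace Pool.Agent.H946.Gcr

open Finset Topology

/-- If the derivative of a bilinear parametrisation is onto at one point, no nonzero polynomial
vanishes on its image. -/
lemma dense_of_surj {ι κ : Type*} [Fintype ι] [Fintype κ] [DecidableEq ι]
    (σ : Type*) [Fintype σ] (ρ γ : σ → ι)
    (U0 : ι → κ → ℂ) (V0 : κ → ι → ℂ)
    (hsurj : ∀ y : σ → ℂ, ∃ (A : ι → κ → ℂ) (B : κ → ι → ℂ),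
      ∀ e, y e = ∑ k, (U0 (ρ e) k * B k (γ e) + V0 k (γ e) * A (ρ e) k))
    (P : MvPolynomial σ ℂ)
    (hP : ∀ (U : ι → κ → ℂ) (V : κ → ι → ℂ),
      MvPolynomial.eval (fun e => ∑ k, U (ρ e) k * V k (γ e)) P = 0) : P = 0 := by
  classical
  let X := (ι → κ → ℂ) × (κ → ι → ℂ)
  let Φ : X → (σ → ℂ) := fun x e => ∑ k, x.1 (ρ e) k * x.2 k (γ e)
  let prU : ι → κ → (X →L[ℂ] ℂ) := fun i k =>
    ((ContinuousLinearMap.proj (R := ℂ) (φ := fun _ : κ => ℂ) k).comp
      (ContinuousLinearMap.proj (R := ℂ) (φ := fun _ : ι => κ → ℂ) i)).comp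
      (ContinuousLinearMap.fst ℂ (ι → κ → ℂ) (κ → ι → ℂ))
  let prV : κ → ι → (X →L[ℂ] ℂ) := fun k j =>
    ((ContinuousLinearMap.proj (R := ℂ) (φ := fun _ : ι => ℂ) j).comp
      (ContinuousLinearMap.proj (R := ℂ) (φ := fun _ : κ => ι → ℂ) k)).comp
      (ContinuousLinearMap.snd ℂ (ι → κ → ℂ) (κ → ι → ℂ))
  let x0 : X := (U0, V0)
  let Φ' : X →L[ℂ] (σ → ℂ) := ContinuousLinearMap.pi (fun e =>
    ∑ k, (U0 (ρ e) k • prV k (γ e) + V0 k (γ e) • prU (ρ e) k))
  have hd : HasStrictFDerivAt Φ Φ' x0 := by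
    refine hasStrictFDerivAt_pi.2 fun e => ?_
    refine HasStrictFDerivAt.fun_sum fun k _ => ?_
    have h1 : HasStrictFDerivAt (fun x : X => prU (ρ e) k x) (prU (ρ e) k) x0 :=
      (prU (ρ e) k).hasStrictFDerivAt
    have h2 : HasStrictFDerivAt (fun x : X => prV k (γ e) x) (prV k (γ e)) x0 :=
      (prV k (γ e)).hasStrictFDerivAt
    exact h1.mul h2
  have hrange : Φ'.range = ⊤ := by
    refine LinearMap.range_eq_top.2 ?_
    intro y
    obtain ⟨A, B, hAB⟩ := hsurj y
    refine ⟨(A, B), ?_⟩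
    funext e
    rw [hAB e]
    simp [Φ', prU, prV]
    rfl
  have hmap := hd.map_nhds_eq_of_surj hrange
  have hmem : Set.range Φ ∈ 𝓝 (Φ x0) := by
    rw [← hmap]
    exact Filter.range_mem_map
  obtain ⟨ε, hε, hball⟩ := Metric.mem_nhds_iff.1 hmem
  rw [ball_pi _ hε] at hball
  refine MvPolynomial.funext_set (fun e => Metric.ball (Φ x0 e) ε) (fun e => ?_) ?_
  · exact infinite_of_mem_nhds (Φ x0 e) (Metric.ball_mem_nhds _ hε)
  · intro x hx
    obtain ⟨u, hu⟩ := hball hx
    rw [map_zero, ← hu]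
    exact hP u.1 u.2

/-- Duality: surjectivity of the derivative from triviality of the stresses. -/
lemma surj_of_stress {ι κ : Type*} [Fintype ι] [Fintype κ] [DecidableEq ι] [DecidableEq κ]
    {σ : Type*} [Fintype σ] [DecidableEq σ] (ρ γ : σ → ι)
    (U0 : ι → κ → ℂ) (V0 : κ → ι → ℂ)
    (hs : ∀ s : σ → ℂ, (∀ k j, ∑ e, (if γ e = j then U0 (ρ e) k else 0) * s e = 0) →
      (∀ k i, ∑ e, (if ρ e = i then V0 k (γ e) else 0) * s e = 0) → ∀ e, s e = 0)
    (y : σ → ℂ) : ∃ (A : ι → κ → ℂ) (B : κ → ι → ℂ),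
      ∀ e, y e = ∑ k, (U0 (ρ e) k * B k (γ e) + V0 k (γ e) * A (ρ e) k) := by
  let L : ((ι → κ → ℂ) × (κ → ι → ℂ)) →ₗ[ℂ] (σ → ℂ) :=
    { toFun := fun x e => ∑ k, (U0 (ρ e) k * x.2 k (γ e) + V0 k (γ e) * x.1 (ρ e) k)
      map_add' := by
        intro x y
        funext e
        simp only [Prod.fst_add, Prod.snd_add, Pi.add_apply]
        rw [← Finset.sum_add_distrib]
        refine Finset.sum_congr rfl fun k _ => ?_
        ring
      map_smul' := by
        intro c x
        funext e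
        simp only [Prod.smul_fst, Prod.smul_snd, Pi.smul_apply, smul_eq_mul, RingHom.id_apply]
        rw [Finset.mul_sum]
        refine Finset.sum_congr rfl fun k _ => ?_
        ring }
  have hLapp : ∀ A B e, L (A, B) e = ∑ k, (U0 (ρ e) k * B k (γ e) + V0 k (γ e) * A (ρ e) k) :=
    fun _ _ _ => rfl
  clear_value L
  have hsurj : Function.Surjective L := by
    rw [← LinearMap.dualMap_injective_iff, injective_iff_map_eq_zero]
    intro φ hφ
    have hφ0 : ∀ A B, φ (L (A, B)) = 0 := by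
      intro A B
      exact LinearMap.congr_fun hφ (A, B)
    have hφsum : ∀ z : σ → ℂ, φ z = ∑ e, z e * φ (Pi.single e 1) := by
      intro z
      have h1 : z = ∑ e, z e • (Pi.single e (1 : ℂ) : σ → ℂ) := by
        funext j
        rw [Finset.sum_apply, Finset.sum_eq_single j]
        · simp
        · intro b _ hb
          simp [Ne.symm hb]
        · intro hh; exact absurd (Finset.mem_univ _) hh
      conv_lhs => rw [h1]
      rw [map_sum]
      refine Finset.sum_congr rfl fun e _ => ?_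
      rw [map_smul, smul_eq_mul]
    have hz : ∀ e, φ (Pi.single e 1) = 0 := by
      refine hs (fun e => φ (Pi.single e 1)) ?_ ?_
      · intro k0 j0
        have h0 := hφ0 0 (fun k j => if k = k0 then (if j = j0 then 1 else 0) else 0)
        rw [hφsum] at h0
        refine Eq.trans (Finset.sum_congr rfl fun e _ => ?_) h0
        congr 1
        rw [hLapp, Finset.sum_eq_single k0]
        · simp
        · intro k _ hk
          simp [hk]
        · intro hh; exact absurd (Finset.mem_univ _) hh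
      · intro k0 i0
        have h0 := hφ0 (fun i k => if k = k0 then (if i = i0 then 1 else 0) else 0) 0
        rw [hφsum] at h0
        refine Eq.trans (Finset.sum_congr rfl fun e _ => ?_) h0
        congr 1
        rw [hLapp, Finset.sum_eq_single k0]
        · simp
        · intro k _ hk
          simp [hk]
        · intro hh; exact absurd (Finset.mem_univ _) hh
    refine LinearMap.ext fun z => ?_
    rw [hφsum z, LinearMap.zero_apply]
    refine Finset.sum_eq_zero fun e _ => ?_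
    rw [hz e, mul_zero]
  obtain ⟨x, hx⟩ := hsurj y
  refine ⟨x.1, x.2, fun e => ?_⟩
  rw [← hx]
  exact hLapp x.1 x.2 e

/-- Sum over the pattern as a double sum. -/
lemma sum_pattern {ι : Type*} [Fintype ι] (R : ι × ι → Prop) [DecidablePred R]
    (s : {p : ι × ι // R p} → ℂ) (G : ι → ι → ℂ) :
    ∑ e, G e.1.1 e.1.2 * s e
      = ∑ i, ∑ j, G i j * (if h : R (i, j) then s ⟨(i, j), h⟩ else 0) := by
  rw [← Fintype.sum_prod_type' (fun i j => G i j * (if h : R (i, j) then s ⟨(i, j), h⟩ else 0))]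
  have e1 : ∀ e : {p : ι × ι // R p},
      G e.1.1 e.1.2 * s e = G e.1.1 e.1.2 *
        (if h : R (e.1.1, e.1.2) then s ⟨(e.1.1, e.1.2), h⟩ else 0) := by
    intro e
    rw [dif_pos e.2]
  simp_rw [e1]
  rw [← Finset.sum_subtype (Finset.univ.filter (fun p : ι × ι => R p)) (by simp)
    (fun p => G p.1 p.2 * (if h : R (p.1, p.2) then s ⟨(p.1, p.2), h⟩ else 0))]
  refine Finset.sum_filter_of_ne ?_
  intro p _ hp
  by_contra hc
  apply hp
  rw [dif_neg hc, mul_zero]

/-- No stresses on the circulant pattern at the roots-of-unity point. -/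
lemma no_stress (n l r : ℕ) [NeZero n] (E F : Finset (ZMod n))
    (hEF : ∀ s : ZMod n, (F.filter (fun b => s - b ∈ E)).card ≤ n - l)
    (α β : Fin r → ZMod n) (hα : ∀ a, a ∉ E → ∃ k, α k = a) (hβ : ∀ b, b ∉ F → ∃ k, β k = b)
    (s : {p : ZMod n × ZMod n // (p.2 - p.1).val < l} → ℂ)
    (h1 : ∀ k j, ∑ e, (if e.1.2 = j then (ZMod.stdAddChar (-(α k * e.1.1)) : ℂ) else 0) * s e = 0)
    (h2 : ∀ k i, ∑ e, (if e.1.1 = i then (ZMod.stdAddChar (-(β k * e.1.2)) : ℂ) else 0) * s e = 0) :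
    ∀ e, s e = 0 := by
  classical
  let S : ZMod n → ZMod n → ℂ := fun i j =>
    if h : (j - i).val < l then s ⟨(i, j), h⟩ else 0
  have hS0 : ∀ i j, S i j = 0 := by
    refine fourier l E F hEF S (fun i j hij => ?_) ?_ ?_
    · simp only [S]
      rw [dif_neg hij]
    · intro a ha j0
      obtain ⟨k0, hk0⟩ := hα a ha
      have h0 := h1 k0 j0
      rw [hk0] at h0
      have h3 := sum_pattern (fun p : ZMod n × ZMod n => (p.2 - p.1).val < l) s
        (fun i j => if j = j0 then (ZMod.stdAddChar (-(a * i)) : ℂ) else 0)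
      rw [h0] at h3
      refine Eq.trans ?_ h3.symm
      refine Finset.sum_congr rfl fun i _ => ?_
      rw [Finset.sum_eq_single j0]
      · rw [if_pos rfl]
      · intro j _ hj
        rw [if_neg hj, zero_mul]
      · intro hh; exact absurd (Finset.mem_univ _) hh
    · intro b hb i0
      obtain ⟨k0, hk0⟩ := hβ b hb
      have h0 := h2 k0 i0
      rw [hk0] at h0
      have h3 := sum_pattern (fun p : ZMod n × ZMod n => (p.2 - p.1).val < l) s
        (fun i j => if i = i0 then (ZMod.stdAddChar (-(b * j)) : ℂ) else 0)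
      rw [h0] at h3
      refine Eq.trans ?_ (Eq.trans (Finset.sum_eq_single i0 ?_ ?_).symm h3.symm)
      · refine Finset.sum_congr rfl fun j _ => ?_
        rw [if_pos rfl]
      · intro i _ hi
        refine Finset.sum_eq_zero fun j _ => ?_
        rw [if_neg hi, zero_mul]
      · intro hh; exact absurd (Finset.mem_univ _) hh
  intro e
  have h4 := hS0 e.1.1 e.1.2
  simp only [S] at h4
  rw [dif_pos e.2] at h4
  exact h4

/-- Arithmetic of the dimension count. -/
lemma numbers (n l r : ℕ) (hln : l ≤ n) (hr : r ≤ n) (h : n * l ≤ r * (2 * n - r)) :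
    ∃ m, m ≤ n ∧ n - m = r ∧ m * m ≤ n * (n - l) := by
  obtain ⟨m, hm⟩ : ∃ m, n = r + m := ⟨n - r, by omega⟩
  obtain ⟨w, hw⟩ : ∃ w, n = l + w := ⟨n - l, by omega⟩
  refine ⟨m, by omega, by omega, ?_⟩
  have h0 : n - l = w := by omega
  rw [h0]
  have h1 : 2 * n - r = r + 2 * m := by omega
  rw [h1] at h
  have h2 : n * l + n * w = n * n := by rw [← mul_add, ← hw]
  have h3 : n * n = r * (r + 2 * m) + m * m := by rw [hm]; ring
  omega

/-- The main theorem over `ZMod n`. -/
theorem core (n l r : ℕ) [NeZero n] (hln : l ≤ n) (hr : r ≤ n) (h : n * l ≤ r * (2 * n - r))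
    (P : MvPolynomial {p : ZMod n × ZMod n // (p.2 - p.1).val < l} ℂ)
    (hP : ∀ (U : ZMod n → Fin r → ℂ) (V : Fin r → ZMod n → ℂ),
      MvPolynomial.eval (fun e => ∑ k, U e.1.1 k * V k e.1.2) P = 0) : P = 0 := by
  obtain ⟨m, hmn, hmr, hmw⟩ := numbers n l r hln hr h
  obtain ⟨E, F, hE, hF, hEF⟩ := exists_sets n m (n - l) hmn hmw
  rw [hmr] at hE hF
  obtain ⟨α, hα⟩ := exists_cover Eᶜ r hE
  obtain ⟨β, hβ⟩ := exists_cover Fᶜ r hF
  have key := surj_of_stress (ι := ZMod n) (κ := Fin r)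
    (σ := {p : ZMod n × ZMod n // (p.2 - p.1).val < l})
    (fun e => e.1.1) (fun e => e.1.2)
    (fun i k => (ZMod.stdAddChar (-(α k * i)) : ℂ))
    (fun k j => (ZMod.stdAddChar (-(β k * j)) : ℂ))
    (fun s h1 h2 => no_stress n l r E F hEF α β (fun a ha => hα a (Finset.mem_compl.2 ha))
      (fun b hb => hβ b (Finset.mem_compl.2 hb)) s h1 h2)
  exact dense_of_surj (ι := ZMod n) (κ := Fin r)
    {p : ZMod n × ZMod n // (p.2 - p.1).val < l} (fun e => e.1.1) (fun e => e.1.2)
    (fun i k => (ZMod.stdAddChar (-(α k * i)) : ℂ))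
    (fun k j => (ZMod.stdAddChar (-(β k * j)) : ℂ)) key P hP

end Pool.Agent.H946.Gcr
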