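import Mathlib

set_option autoImplicit false

namespace Pool.Agent.H946.Per

open Finset Equiv

/-- The permanent, rows first. -/
def per {ι : Type*} [Fintype ι] [DecidableEq ι] (M : ι → ι → ℤ) : ℤ :=
  ∑ σ : Perm ι, ∏ i, M i (σ i)

lemma permanent_eq_per {n : ℕ} (A : Matrix (Fin n) (Fin n) ℤ) :
    A.permanent = per (fun i j => A i j) := by
  unfold Matrix.permanent per
  refine Fintype.sum_equiv (Equiv.inv (Perm (Fin n))) _ _ fun σ => ?_
  refine Fintype.prod_equiv σ _ _ fun i => ?_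
  simp

lemma per_reindex {ι κ : Type*} [Fintype ι] [DecidableEq ι] [Fintype κ] [DecidableEq κ]
    (e : ι ≃ κ) (M : κ → κ → ℤ) : per (fun i j => M (e i) (e j)) = per M := by
  unfold per
  refine Fintype.sum_equiv (Equiv.permCongr e) _ _ fun σ => ?_
  refine Fintype.prod_equiv e _ _ fun i => ?_
  simp [Equiv.permCongr_apply]

variable {ι : Type*} [Fintype ι] [DecidableEq ι]

lemma per_split1 (M : ι → ι → ℤ) (r : ι) :
    per M = ∑ σ : Perm ι, M r (σ r) * ∏ x ∈ univ.erase r, M x (σ x) := by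
  unfold per
  refine Finset.sum_congr rfl fun σ _ => ?_
  rw [← Finset.mul_prod_erase univ (fun x => M x (σ x)) (Finset.mem_univ r)]

lemma per_split2 (M : ι → ι → ℤ) (p r : ι) (hpr : p ≠ r) :
    per M = ∑ σ : Perm ι, (M p (σ p) * M r (σ r)) *
      ∏ x ∈ (univ.erase r).erase p, M x (σ x) := by
  rw [per_split1 M r]
  refine Finset.sum_congr rfl fun σ _ => ?_
  rw [← Finset.mul_prod_erase (univ.erase r) (fun x => M x (σ x))
    (Finset.mem_erase.2 ⟨hpr, Finset.mem_univ p⟩)]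
  ring

lemma per_split3 (M : ι → ι → ℤ) (p q r : ι) (hpq : p ≠ q) (hpr : p ≠ r) (hqr : q ≠ r) :
    per M = ∑ σ : Perm ι, (M p (σ p) * M q (σ q) * M r (σ r)) *
      ∏ x ∈ ((univ.erase r).erase q).erase p, M x (σ x) := by
  rw [per_split2 M q r hqr]
  refine Finset.sum_congr rfl fun σ _ => ?_
  rw [← Finset.mul_prod_erase ((univ.erase r).erase q) (fun x => M x (σ x))
    (Finset.mem_erase.2 ⟨hpq, Finset.mem_erase.2 ⟨hpr, Finset.mem_univ p⟩⟩)]
  ring

/-- Rows outside `p` are unit rows. -/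
lemma per_subtype (p : ι → Prop) [DecidablePred p] (N : ι → ι → ℤ)
    (h : ∀ x, ¬ p x → ∀ y, N x y = if y = x then 1 else 0) :
    per N = per (fun x y : {x // p x} => N x y) := by
  classical
  unfold per
  have h1 : ∑ σ : Perm ι, ∏ i, N i (σ i)
      = ∑ σ ∈ univ.filter (fun σ : Perm ι => ∀ a, ¬ p a → σ a = a), ∏ i, N i (σ i) := by
    symm
    refine Finset.sum_filter_of_ne ?_
    intro σ _ hσ
    by_contra hc
    push Not at hc
    obtain ⟨a, ha, hne⟩ := hc
    apply hσ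
    refine Finset.prod_eq_zero (Finset.mem_univ a) ?_
    rw [h a ha, if_neg hne]
  rw [h1]
  rw [Finset.sum_subtype (univ.filter (fun σ : Perm ι => ∀ a, ¬ p a → σ a = a))
    (p := fun σ => ∀ a, ¬ p a → σ a = a) (by simp) (fun σ => ∏ i, N i (σ i))]
  symm
  refine Fintype.sum_equiv (Equiv.Perm.subtypeEquivSubtypePerm p) _ _ fun τ => ?_
  rw [← Fintype.prod_subtype_mul_prod_subtype p]
  have h2 : ∏ i : {x // ¬ p x}, N i ((Equiv.Perm.subtypeEquivSubtypePerm p τ).1 i) = 1 := by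
    refine Finset.prod_eq_one fun i _ => ?_
    rw [(Equiv.Perm.subtypeEquivSubtypePerm p τ).2 i i.2, h i i.2, if_pos rfl]
  rw [h2, mul_one]
  refine Finset.prod_congr rfl fun i _ => ?_
  rw [Equiv.Perm.subtypeEquivSubtypePerm_apply_of_mem τ i.2]

/-- Reindexing a weighted sum over permutations by a transposition of the rows. -/
lemma sum_swap (W : Perm ι → ℤ) (u v : ι) (hW : ∀ σ, W (σ * swap u v) = W σ)
    (g : Perm ι → ℤ) : ∑ σ, g σ * W σ = ∑ σ, g (σ * swap u v) * W σ := by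
  symm
  refine Fintype.sum_equiv (Equiv.mulRight (swap u v)) _ _ fun σ => ?_
  rw [Equiv.coe_mulRight, hW]

/-- Antisymmetric sums vanish. -/
lemma sum_antisymm (Θ : Perm (Perm ι)) (g : Perm ι → ℤ) (h : ∀ σ, g (Θ σ) = - g σ) :
    ∑ σ, g σ = 0 := by
  have h1 : ∑ σ, g (Θ σ) = ∑ σ, g σ := Equiv.sum_comp Θ g
  have h2 : ∑ σ, g (Θ σ) = - ∑ σ, g σ := by
    rw [← Finset.sum_neg_distrib]
    exact Finset.sum_congr rfl fun σ _ => h σ
  omega

/-- Counting permutations with a prescribed value. -/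
lemma sum_perm_apply (g : ι → ℤ) (i : ι) :
    ∑ σ : Perm ι, g (σ i) = ((Fintype.card ι - 1).factorial : ℤ) * ∑ j, g j := by
  have hcard : 0 < Fintype.card ι := Fintype.card_pos_iff.2 ⟨i⟩
  have h1 : ∀ i', ∑ σ : Perm ι, g (σ i') = ∑ σ : Perm ι, g (σ i) := by
    intro i'
    refine Fintype.sum_equiv (Equiv.mulRight (swap i' i)) _ _ fun σ => ?_
    simp
  have h2 : (Fintype.card ι : ℤ) * ∑ σ : Perm ι, g (σ i)
      = (Fintype.card ι : ℤ) * (((Fintype.card ι - 1).factorial : ℤ) * ∑ j, g j) := by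
    calc (Fintype.card ι : ℤ) * ∑ σ : Perm ι, g (σ i)
        = ∑ _i' : ι, ∑ σ : Perm ι, g (σ i) := by
          rw [Finset.sum_const, Finset.card_univ, nsmul_eq_mul]
      _ = ∑ i' : ι, ∑ σ : Perm ι, g (σ i') := by
          refine Finset.sum_congr rfl fun i' _ => (h1 i').symm
      _ = ∑ σ : Perm ι, ∑ i' : ι, g (σ i') := Finset.sum_comm
      _ = ∑ σ : Perm ι, ∑ j, g j := by
          refine Finset.sum_congr rfl fun σ _ => Equiv.sum_comp σ g
      _ = ((Fintype.card ι).factorial : ℤ) * ∑ j, g j := by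
          rw [Finset.sum_const, Finset.card_univ, Fintype.card_perm, nsmul_eq_mul]
      _ = (Fintype.card ι : ℤ) * (((Fintype.card ι - 1).factorial : ℤ) * ∑ j, g j) := by
          rw [← mul_assoc]
          congr 1
          have := Nat.mul_factorial_pred (n := Fintype.card ι) (by omega)
          exact_mod_cast this.symm
  exact mul_left_cancel₀ (by exact_mod_cast hcard.ne') h2

/-- A product of `1 - 2 z_i` with `z_i ∈ {0,1}`. -/
lemma prod_bounds {β : Type*} (s : Finset β) (z : β → ℤ) (hz : ∀ i, z i = 0 ∨ z i = 1) :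
    (∏ i ∈ s, (1 - 2 * z i) = 1 ∨ ∏ i ∈ s, (1 - 2 * z i) = -1) ∧
      1 - 2 * ∑ i ∈ s, z i ≤ ∏ i ∈ s, (1 - 2 * z i) := by
  classical
  induction s using Finset.induction_on with
  | empty => simp
  | insert a s ha ih =>
    obtain ⟨h1, h2⟩ := ih
    rw [Finset.prod_insert ha, Finset.sum_insert ha]
    have h3 : 0 ≤ ∑ i ∈ s, z i := Finset.sum_nonneg fun i _ => by
      rcases hz i with h | h <;> rw [h] <;> norm_num
    rcases hz a with h | h <;> rcases h1 with h4 | h4 <;> rw [h, h4] <;> rw [h4] at h2 <;>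
      refine ⟨?_, ?_⟩ <;> omega

lemma per_pm (Z : ι → ι → ℤ) (hZ : ∀ i j, Z i j = 0 ∨ Z i j = 1) :
    per (fun i j => 1 - 2 * Z i j) ≤ ((Fintype.card ι).factorial : ℤ) ∧
    ((Fintype.card ι).factorial : ℤ)
      - 2 * (((Fintype.card ι - 1).factorial : ℤ) * ∑ i, ∑ j, Z i j)
      ≤ per (fun i j => 1 - 2 * Z i j) := by
  unfold per
  constructor
  · calc ∑ σ : Perm ι, ∏ i, (1 - 2 * Z i (σ i)) ≤ ∑ _σ : Perm ι, (1 : ℤ) := by
          refine Finset.sum_le_sum fun σ _ => ?_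
          rcases (prod_bounds univ (fun i => Z i (σ i)) (fun i => hZ i _)).1 with h | h
          · exact h.le
          · exact h.le.trans (by norm_num)
      _ = _ := by rw [Finset.sum_const, Finset.card_univ, Fintype.card_perm]; simp
  · have e1 : ∑ σ : Perm ι, (1 - 2 * ∑ i, Z i (σ i))
        = ((Fintype.card ι).factorial : ℤ) - 2 * ∑ σ : Perm ι, ∑ i, Z i (σ i) := by
      rw [Finset.sum_sub_distrib, Finset.sum_const, Finset.card_univ, Fintype.card_perm,
        ← Finset.mul_sum]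
      simp
    have e2 : ∑ σ : Perm ι, ∑ i, Z i (σ i)
        = ((Fintype.card ι - 1).factorial : ℤ) * ∑ i, ∑ j, Z i j := by
      rw [Finset.sum_comm, Finset.mul_sum]
      exact Finset.sum_congr rfl fun i _ => sum_perm_apply (Z i) i
    rw [← e2, ← e1]
    exact Finset.sum_le_sum fun σ _ =>
      (prod_bounds univ (fun i => Z i (σ i)) (fun i => hZ i _)).2

end Pool.Agent.H946.Per
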