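import Mathlib
import Pool.Agent.H946.PerA

set_option autoImplicit false

namespace Pool.Agent.H946.Per

open Finset Equiv

/-- Rows and columns: two chains of length `K+1` and `s` further indices. -/
abbrev Idx (K s : ℕ) := (Fin (K + 1) × Bool) ⊕ Fin s

variable {K s : ℕ}

/-- Unit vectors of the chains (zero if the index is out of range). -/
def e (i : ℕ) (t : Bool) : Idx K s → ℤ
  | Sum.inl (i', t') => if (i' : ℕ) = i ∧ t' = t then 1 else 0
  | Sum.inr _ => 0

/-- Rows linking consecutive elements of a chain. -/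
def rho (i : ℕ) (t : Bool) : Idx K s → ℤ := fun y => 1 - 2 * e i t y - 2 * e (i + 1) t y

/-- The matrix whose chain rows with index in `[k,j)` are unit vectors. -/
def R (k j : ℕ) : Idx K s → Idx K s → ℤ
  | Sum.inl (i, t) => if k ≤ (i : ℕ) ∧ (i : ℕ) < j then e (i : ℕ) t else rho (i : ℕ) t
  | Sum.inr _ => fun _ => 1

/-- Swapping the two chains at the indices satisfying `P`. -/
def flipFun (P : ℕ → Prop) [DecidablePred P] : Idx K s → Idx K s
  | Sum.inl (i, t) => if P (i : ℕ) then Sum.inl (i, !t) else Sum.inl (i, t)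
  | Sum.inr x => Sum.inr x

lemma flip_invol (P : ℕ → Prop) [DecidablePred P] :
    Function.Involutive (flipFun P : Idx K s → Idx K s) := by
  intro x
  rcases x with ⟨i, t⟩ | x
  · by_cases h : P (i : ℕ) <;> simp [flipFun, h]
  · rfl

def flip (P : ℕ → Prop) [DecidablePred P] : Perm (Idx K s) := (flip_invol P).toPerm

lemma flip_apply (P : ℕ → Prop) [DecidablePred P] (x : Idx K s) : flip P x = flipFun P x := rfl

lemma flip_flip (P : ℕ → Prop) [DecidablePred P] (x : Idx K s) : flip P (flip P x) = x :=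
  flip_invol P x

lemma e_flip (P : ℕ → Prop) [DecidablePred P] (i : ℕ) (t : Bool) (y : Idx K s) :
    e i t (flip P y) = if P i then e i (!t) y else e i t y := by
  rw [flip_apply]
  rcases y with ⟨i', t'⟩ | y
  · by_cases h : (i' : ℕ) = i
    · subst h
      by_cases hP : P (i' : ℕ)
      · simp only [flipFun, if_pos hP, e]
        cases t <;> cases t' <;> simp
      · simp [flipFun, if_neg hP, e]
    · have h0 : ∀ t0 t1 : Bool, (e i t0 : Idx K s → ℤ) (Sum.inl (i', t1)) = 0 := by
        intro t0 t1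
        simp only [e]
        rw [if_neg (by rintro ⟨h1, _⟩; exact h h1)]
      by_cases hP : P (i' : ℕ)
      · simp only [flipFun, if_pos hP, h0]
        simp
      · simp only [flipFun, if_neg hP, h0]
        simp
  · simp [flipFun, e]

lemma rho_flip (P : ℕ → Prop) [DecidablePred P] (i : ℕ) (t : Bool) (y : Idx K s) :
    rho i t (flip P y) = 1 - 2 * (if P i then e i (!t) y else e i t y)
      - 2 * (if P (i + 1) then e (i + 1) (!t) y else e (i + 1) t y) := by
  simp only [rho, e_flip]

/-- The symmetry of the rows. -/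
lemma R_flip (k j : ℕ) (x y : Idx K s) (hx : ∀ t, ∀ i : Fin (K + 1), (i : ℕ) = j → x ≠ Sum.inl (i, t)) :
    R k j (flip (fun i => i < j) x) (flip (fun i => i ≤ j) y) = R k j x y := by
  rcases x with ⟨i, t⟩ | x
  · have hij : (i : ℕ) ≠ j := fun h => hx t i h rfl
    rcases lt_or_gt_of_ne hij with h | h
    · have e1 : flip (fun i => i < j) (Sum.inl (i, t) : Idx K s) = Sum.inl (i, !t) := by
        rw [flip_apply]; simp [flipFun, h]
      rw [e1]
      simp only [R]
      by_cases hc : k ≤ (i : ℕ) ∧ (i : ℕ) < j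
      · rw [if_pos hc, if_pos hc, e_flip, if_pos (show (i : ℕ) ≤ j by omega), Bool.not_not]
      · rw [if_neg hc, if_neg hc, rho_flip, if_pos (show (i : ℕ) ≤ j by omega),
          if_pos (show (i : ℕ) + 1 ≤ j by omega), Bool.not_not]
        rfl
    · have e1 : flip (fun i => i < j) (Sum.inl (i, t) : Idx K s) = Sum.inl (i, t) := by
        rw [flip_apply]; simp [flipFun, not_lt.2 h.le]
      rw [e1]
      simp only [R]
      have hc : ¬ (k ≤ (i : ℕ) ∧ (i : ℕ) < j) := by omega
      rw [if_neg hc, rho_flip, if_neg (show ¬ (i : ℕ) ≤ j by omega),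
          if_neg (show ¬ (i : ℕ) + 1 ≤ j by omega)]
      rfl
  · rfl

/-- The weight of the remaining rows is symmetric. -/
lemma weight_flip (k j : ℕ) (S : Finset (Idx K s))
    (hS1 : ∀ x, x ∈ S ↔ flip (fun i => i < j) x ∈ S)
    (hS2 : ∀ x ∈ S, ∀ t, ∀ i : Fin (K + 1), (i : ℕ) = j → x ≠ Sum.inl (i, t))
    (σ : Perm (Idx K s)) :
    ∏ x ∈ S, R k j x ((flip (fun i => i ≤ j) * σ * flip (fun i => i < j) : Perm (Idx K s)) x)
      = ∏ x ∈ S, R k j x (σ x) := by
  refine Finset.prod_equiv (flip (fun i => i < j)) (fun x => hS1 x) ?_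
  intro x hx
  simp only [Equiv.Perm.mul_apply]
  have h1 := R_flip k j (flip (fun i => i < j) x) (σ (flip (fun i => i < j) x))
    (hS2 _ ((hS1 x).1 hx))
  rw [flip_flip] at h1
  exact h1

/-- Left and right multiplication by involutions, as a permutation of the group. -/
def conj2 (a b : Perm (Idx K s)) : Perm (Perm (Idx K s)) :=
  (Equiv.mulLeft a).trans (Equiv.mulRight b)

lemma conj2_apply (a b σ : Perm (Idx K s)) : conj2 a b σ = a * σ * b := rfl

lemma e_inl (i : Fin (K + 1)) (t : Bool) (y : Idx K s) :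
    e (i : ℕ) t y = if y = Sum.inl (i, t) then 1 else 0 := by
  rcases y with ⟨i', t'⟩ | y
  · simp only [e, Sum.inl.injEq, Prod.mk.injEq, Fin.ext_iff]
  · simp [e]

end Pool.Agent.H946.Per
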