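import Mathlib
import Pool.Agent.H946.PerB

set_option autoImplicit false

namespace Pool.Agent.H946.Per

open Finset Equiv

section general
variable {ι : Type*} [Fintype ι] [DecidableEq ι]

lemma prod_swap_inv (M : ι → ι → ℤ) (S : Finset ι) (u v : ι) (hu : u ∉ S) (hv : v ∉ S)
    (σ : Perm ι) : ∏ x ∈ S, M x ((σ * swap u v) x) = ∏ x ∈ S, M x (σ x) := by
  refine Finset.prod_congr rfl fun x hx => ?_
  rw [Equiv.Perm.mul_apply, swap_apply_of_ne_of_ne (by rintro rfl; exact hu hx)
    (by rintro rfl; exact hv hx)]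

/-- The basic identity for three rows. -/
lemma three_rows (W : Perm ι → ℤ) (p q r a b : ι) (hpq : p ≠ q) (hpr : p ≠ r) (hqr : q ≠ r)
    (hW1 : ∀ σ, W (σ * swap q r) = W σ) (hW2 : ∀ σ, W (σ * swap p r) = W σ)
    (X Y A B : ι → ℤ) (hA : ∀ y, A y = if y = a then 1 else 0)
    (hB : ∀ y, B y = if y = b then 1 else 0) :
    ∑ σ : Perm ι, ((X (σ p) - 2 * A (σ p)) * (Y (σ q) - 2 * B (σ q)) * (A (σ r) - B (σ r))) * W σ
      = ∑ σ : Perm ι, (X (σ p) * Y (σ q) * (A (σ r) - B (σ r))) * W σ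
        + 2 * ∑ σ : Perm ι, (A (σ p) * B (σ q) * (Y (σ r) - X (σ r))) * W σ := by
  have hAA : ∀ σ : Perm ι, A (σ p) * A (σ r) = 0 := by
    intro σ
    rw [hA, hA]
    by_cases h : σ p = a
    · rw [if_neg (show ¬ σ r = a from fun h' => hpr (σ.injective (h.trans h'.symm))), mul_zero]
    · rw [if_neg h, zero_mul]
  have hBB : ∀ σ : Perm ι, B (σ q) * B (σ r) = 0 := by
    intro σ
    rw [hB, hB]
    by_cases h : σ q = b
    · rw [if_neg (show ¬ σ r = b from fun h' => hqr (σ.injective (h.trans h'.symm))), mul_zero]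
    · rw [if_neg h, zero_mul]
  have e1 : ∀ σ : Perm ι,
      ((X (σ p) - 2 * A (σ p)) * (Y (σ q) - 2 * B (σ q)) * (A (σ r) - B (σ r))) * W σ
      = (X (σ p) * Y (σ q) * (A (σ r) - B (σ r))) * W σ
        + 2 * ((A (σ p) * Y (σ q) * B (σ r)) * W σ)
        - 2 * ((X (σ p) * B (σ q) * A (σ r)) * W σ) := by
    intro σ
    have h1 := hAA σ
    have h2 := hBB σ
    linear_combination (-2 * Y (σ q) * W σ + 4 * B (σ q) * W σ) * h1
      + (2 * X (σ p) * W σ - 4 * A (σ p) * W σ) * h2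
  have e2 : ∑ σ : Perm ι, (A (σ p) * Y (σ q) * B (σ r)) * W σ
      = ∑ σ : Perm ι, (A (σ p) * B (σ q) * Y (σ r)) * W σ := by
    rw [sum_swap W q r hW1]
    refine Finset.sum_congr rfl fun σ _ => ?_
    rw [Equiv.Perm.mul_apply, Equiv.Perm.mul_apply, Equiv.Perm.mul_apply, swap_apply_left,
      swap_apply_right, swap_apply_of_ne_of_ne hpq hpr]
    ring
  have e3 : ∑ σ : Perm ι, (X (σ p) * B (σ q) * A (σ r)) * W σ
      = ∑ σ : Perm ι, (A (σ p) * B (σ q) * X (σ r)) * W σ := by
    rw [sum_swap W p r hW2]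
    refine Finset.sum_congr rfl fun σ _ => ?_
    rw [Equiv.Perm.mul_apply, Equiv.Perm.mul_apply, Equiv.Perm.mul_apply, swap_apply_left,
      swap_apply_right, swap_apply_of_ne_of_ne hpq.symm hqr]
    ring
  simp_rw [e1]
  rw [Finset.sum_sub_distrib, Finset.sum_add_distrib, ← Finset.mul_sum, ← Finset.mul_sum, e2, e3,
    add_sub_assoc, ← mul_sub, ← Finset.sum_sub_distrib]
  congr 2
  refine Finset.sum_congr rfl fun σ _ => ?_
  ring

/-- The basic identity for two rows. -/
lemma two_rows (W : Perm ι → ℤ) (p r a : ι) (hpr : p ≠ r)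
    (A B : ι → ℤ) (hA : ∀ y, A y = if y = a then 1 else 0) :
    ∑ σ : Perm ι, ((1 - 2 * A (σ p)) * (A (σ r) - B (σ r))) * W σ
      = ∑ σ : Perm ι, (A (σ r) - B (σ r)) * W σ
        + 2 * ∑ σ : Perm ι, (A (σ p) * B (σ r)) * W σ := by
  have hAA : ∀ σ : Perm ι, A (σ p) * A (σ r) = 0 := by
    intro σ
    rw [hA, hA]
    by_cases h : σ p = a
    · rw [if_neg (show ¬ σ r = a from fun h' => hpr (σ.injective (h.trans h'.symm))), mul_zero]
    · rw [if_neg h, zero_mul]
  rw [Finset.mul_sum, ← Finset.sum_add_distrib]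
  refine Finset.sum_congr rfl fun σ _ => ?_
  linear_combination (-2 * W σ) * hAA σ

end general

variable {K s : ℕ}

/-- The free row. -/
abbrev rr : Idx K s := Sum.inl (Fin.last K, true)

def Mk (k j : ℕ) : Idx K s → Idx K s → ℤ :=
  Function.update (R k j) rr (fun y => e j false y - e j true y)

lemma Mk_rr (k j : ℕ) : (Mk k j : Idx K s → Idx K s → ℤ) rr = fun y => e j false y - e j true y :=
  Function.update_self _ _ _

lemma Mk_ne (k j : ℕ) (x : Idx K s) (hx : x ≠ rr) : Mk k j x = R k j x :=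
  Function.update_of_ne hx _ _

lemma flip_fix (P : ℕ → Prop) [DecidablePred P] (i : Fin (K + 1)) (t : Bool) (h : ¬ P (i : ℕ)) :
    flip P (Sum.inl (i, t) : Idx K s) = Sum.inl (i, t) := by
  rw [flip_apply]; simp [flipFun, h]

lemma flip_ne (P : ℕ → Prop) [DecidablePred P] (i : Fin (K + 1)) (t : Bool) (h : ¬ P (i : ℕ))
    (x : Idx K s) (hx : x ≠ Sum.inl (i, t)) : flip P x ≠ Sum.inl (i, t) := by
  intro h1
  apply hx
  rw [← flip_flip P x, h1, flip_fix P i t h]

lemma R_succ (k j : ℕ) (x : Idx K s) (hx : ∀ t, ∀ i : Fin (K + 1), (i : ℕ) = j → x ≠ Sum.inl (i, t)) :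
    R k (j + 1) x = R k j x := by
  rcases x with ⟨i, t⟩ | x
  · have hij : (i : ℕ) ≠ j := fun h => hx t i h rfl
    simp only [R]
    by_cases hc : k ≤ (i : ℕ) ∧ (i : ℕ) < j
    · rw [if_pos hc, if_pos (show k ≤ (i : ℕ) ∧ (i : ℕ) < j + 1 by omega)]
    · rw [if_neg hc, if_neg (show ¬ (k ≤ (i : ℕ) ∧ (i : ℕ) < j + 1) by omega)]
  · rfl

lemma step (k j : ℕ) (hkj : k ≤ j) (hj : j < K) :
    per (Mk k j : Idx K s → Idx K s → ℤ) = 4 * per (Mk k (j + 1) : Idx K s → Idx K s → ℤ) := by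
  classical
  have hjK : j < K + 1 := by omega
  set p : Idx K s := Sum.inl (⟨j, hjK⟩, false) with hp
  set q : Idx K s := Sum.inl (⟨j, hjK⟩, true) with hq
  have hpq : p ≠ q := by simp [hp, hq]
  have hne : ∀ t, (Sum.inl (⟨j, hjK⟩, t) : Idx K s) ≠ rr := by
    intro t h
    have := congrArg Fin.val (Prod.mk.inj (Sum.inl.inj h)).1
    simp at this
    omega
  have hpr : p ≠ rr := hne false
  have hqr : q ≠ rr := hne true
  set S : Finset (Idx K s) := ((univ.erase rr).erase q).erase p with hS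
  have hpS : p ∉ S := by simp [hS]
  have hqS : q ∉ S := by simp [hS]
  have hrS : rr ∉ S := by simp [hS]
  have hSmem : ∀ x, x ∈ S ↔ x ≠ p ∧ x ≠ q ∧ x ≠ rr := by
    intro x; simp [hS]
  have hSj : ∀ x ∈ S, ∀ t, ∀ i : Fin (K + 1), (i : ℕ) = j → x ≠ Sum.inl (i, t) := by
    intro x hx t i hi h
    have hi' : i = ⟨j, hjK⟩ := Fin.ext hi
    subst hi'
    obtain ⟨h1, h2, _⟩ := (hSmem x).1 hx
    cases t
    · exact h1 h
    · exact h2 h
  set W : Perm (Idx K s) → ℤ := fun σ => ∏ x ∈ S, R k j x (σ x) with hW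
  -- split both permanents
  have h1 : per (Mk k j : Idx K s → Idx K s → ℤ) = ∑ σ : Perm (Idx K s),
      (((1 - 2 * e (j + 1) false (σ p)) - 2 * e j false (σ p)) *
        ((1 - 2 * e (j + 1) true (σ q)) - 2 * e j true (σ q)) *
        (e j false (σ rr) - e j true (σ rr))) * W σ := by
    rw [per_split3 _ p q rr hpq hpr hqr]
    refine Finset.sum_congr rfl fun σ _ => ?_
    have hWσ : ∏ x ∈ S, Mk k j x (σ x) = W σ := by
      refine Finset.prod_congr rfl fun x hx => ?_
      rw [Mk_ne k j x ((hSmem x).1 hx).2.2]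
    rw [hWσ, Mk_rr, Mk_ne k j p hpr, Mk_ne k j q hqr]
    have h2 : ∀ t y, R k j (Sum.inl (⟨j, hjK⟩, t) : Idx K s) y
        = (1 - 2 * e (j + 1) t y) - 2 * e j t y := by
      intro t y
      simp only [R]
      rw [if_neg (by omega)]
      simp only [rho]
      ring
    rw [hp, hq, h2, h2]
  have h2 : per (Mk k (j + 1) : Idx K s → Idx K s → ℤ) = ∑ σ : Perm (Idx K s),
      (e j false (σ p) * e j true (σ q) *
        (e (j + 1) false (σ rr) - e (j + 1) true (σ rr))) * W σ := by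
    rw [per_split3 _ p q rr hpq hpr hqr]
    refine Finset.sum_congr rfl fun σ _ => ?_
    have hWσ : ∏ x ∈ S, Mk k (j + 1) x (σ x) = W σ := by
      refine Finset.prod_congr rfl fun x hx => ?_
      rw [Mk_ne k (j + 1) x ((hSmem x).1 hx).2.2, R_succ k j x (hSj x hx)]
    rw [hWσ, Mk_rr, Mk_ne k (j + 1) p hpr, Mk_ne k (j + 1) q hqr]
    have h2 : ∀ t y, R k (j + 1) (Sum.inl (⟨j, hjK⟩, t) : Idx K s) y = e j t y := by
      intro t y
      simp only [R]
      rw [if_pos (by omega)]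
    rw [hp, hq, h2, h2]
  have hA : ∀ y : Idx K s, e j false y = if y = p then 1 else 0 := fun y => e_inl ⟨j, hjK⟩ false y
  have hB : ∀ y : Idx K s, e j true y = if y = q then 1 else 0 := fun y => e_inl ⟨j, hjK⟩ true y
  have h3 := three_rows W p q rr p q hpq hpr hqr
    (fun σ => prod_swap_inv _ S q rr hqS hrS σ) (fun σ => prod_swap_inv _ S p rr hpS hrS σ)
    (fun y => 1 - 2 * e (j + 1) false y) (fun y => 1 - 2 * e (j + 1) true y)
    (e j false) (e j true) hA hB
  have h4 : ∑ σ : Perm (Idx K s), ((1 - 2 * e (j + 1) false (σ p)) * (1 - 2 * e (j + 1) true (σ q)) *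
      (e j false (σ rr) - e j true (σ rr))) * W σ = 0 := by
    refine sum_antisymm (conj2 (flip (fun i => i ≤ j)) (flip (fun i => i < j))) _ fun σ => ?_
    have hWσ : W (conj2 (flip (fun i => i ≤ j)) (flip (fun i => i < j)) σ) = W σ := by
      rw [conj2_apply]
      refine weight_flip k j S ?_ hSj σ
      intro x
      rw [hSmem, hSmem]
      constructor
      · rintro ⟨a1, a2, a3⟩
        exact ⟨flip_ne _ _ _ (by simp) x a1, flip_ne _ _ _ (by simp) x a2,
          flip_ne _ _ _ (by simp; omega) x a3⟩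
      · rintro ⟨a1, a2, a3⟩
        refine ⟨fun h => a1 ?_, fun h => a2 ?_, fun h => a3 ?_⟩
        · rw [h]; exact flip_fix _ _ _ (by simp)
        · rw [h]; exact flip_fix _ _ _ (by simp)
        · rw [h]; exact flip_fix _ _ _ (by simp; omega)
    rw [hWσ, conj2_apply]
    simp only [Equiv.Perm.mul_apply]
    have f1 : flip (fun i => i < j) p = p := flip_fix _ _ _ (by simp)
    have f2 : flip (fun i => i < j) q = q := flip_fix _ _ _ (by simp)
    have f3 : flip (fun i => i < j) (rr : Idx K s) = rr := flip_fix _ _ _ (by simp; omega)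
    rw [f1, f2, f3, e_flip, e_flip, e_flip, e_flip, if_neg (show ¬ j + 1 ≤ j by omega),
      if_neg (show ¬ j + 1 ≤ j by omega), if_pos (le_refl j), if_pos (le_refl j)]
    simp only [Bool.not_false, Bool.not_true]
    ring
  rw [h1, h2]
  rw [h3, h4, zero_add, Finset.mul_sum, Finset.mul_sum]
  refine Finset.sum_congr rfl fun σ _ => ?_
  ring

lemma e_big (i : ℕ) (hi : K < i) (t : Bool) (y : Idx K s) : e i t y = 0 := by
  rcases y with ⟨i', t'⟩ | y
  · simp only [e]
    rw [if_neg (by rintro ⟨h1, _⟩; have := i'.2; omega)]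
  · rfl

lemma laststep (k : ℕ) (hk : k ≤ K) :
    per (Mk k K : Idx K s → Idx K s → ℤ) = 2 * per (R k (K + 1) : Idx K s → Idx K s → ℤ) := by
  classical
  set p : Idx K s := Sum.inl (Fin.last K, false) with hp
  have hpr : p ≠ rr := by simp [hp]
  set S : Finset (Idx K s) := (univ.erase rr).erase p with hS
  have hpS : p ∉ S := by simp [hS]
  have hrS : rr ∉ S := by simp [hS]
  have hSmem : ∀ x, x ∈ S ↔ x ≠ p ∧ x ≠ rr := by
    intro x; simp [hS]
  have hSj : ∀ x ∈ S, ∀ t, ∀ i : Fin (K + 1), (i : ℕ) = K → x ≠ Sum.inl (i, t) := by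
    intro x hx t i hi h
    have hi' : i = Fin.last K := Fin.ext hi
    subst hi'
    obtain ⟨h1, h2⟩ := (hSmem x).1 hx
    cases t
    · exact h1 h
    · exact h2 h
  set W : Perm (Idx K s) → ℤ := fun σ => ∏ x ∈ S, R k K x (σ x) with hW
  have h1 : per (Mk k K : Idx K s → Idx K s → ℤ) = ∑ σ : Perm (Idx K s),
      ((1 - 2 * e K false (σ p)) * (e K false (σ rr) - e K true (σ rr))) * W σ := by
    rw [per_split2 _ p rr hpr]
    refine Finset.sum_congr rfl fun σ _ => ?_
    have hWσ : ∏ x ∈ S, Mk k K x (σ x) = W σ := by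
      refine Finset.prod_congr rfl fun x hx => ?_
      rw [Mk_ne k K x ((hSmem x).1 hx).2]
    rw [hWσ, Mk_rr, Mk_ne k K p hpr]
    have h2 : ∀ y, R k K p y = 1 - 2 * e K false y := by
      intro y
      simp only [hp, R, Fin.val_last]
      rw [if_neg (by omega)]
      simp only [rho]
      rw [e_big (K + 1) (by omega)]
      ring
    rw [h2]
  have h2 : per (R k (K + 1) : Idx K s → Idx K s → ℤ) = ∑ σ : Perm (Idx K s),
      (e K false (σ p) * e K true (σ rr)) * W σ := by
    rw [per_split2 _ p rr hpr]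
    refine Finset.sum_congr rfl fun σ _ => ?_
    have hWσ : ∏ x ∈ S, R k (K + 1) x (σ x) = W σ := by
      refine Finset.prod_congr rfl fun x hx => ?_
      rw [R_succ k K x (hSj x hx)]
    rw [hWσ]
    have h2 : ∀ t y, R k (K + 1) (Sum.inl (Fin.last K, t) : Idx K s) y = e K t y := by
      intro t y
      simp only [R, Fin.val_last]
      rw [if_pos (by omega)]
    rw [hp, h2, h2]
  have hA : ∀ y : Idx K s, e K false y = if y = p then 1 else 0 := fun y => e_inl (Fin.last K) false y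
  have h3 := two_rows W p rr p hpr (e K false) (e K true) hA
  have h4 : ∑ σ : Perm (Idx K s), (e K false (σ rr) - e K true (σ rr)) * W σ = 0 := by
    refine sum_antisymm (conj2 (flip (fun i => i ≤ K)) (flip (fun i => i < K))) _ fun σ => ?_
    have hWσ : W (conj2 (flip (fun i => i ≤ K)) (flip (fun i => i < K)) σ) = W σ := by
      rw [conj2_apply]
      refine weight_flip k K S ?_ hSj σ
      intro x
      rw [hSmem, hSmem]
      constructor
      · rintro ⟨a1, a2⟩
        exact ⟨flip_ne _ _ _ (by simp) x a1, flip_ne _ _ _ (by simp) x a2⟩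
      · rintro ⟨a1, a2⟩
        refine ⟨fun h => a1 ?_, fun h => a2 ?_⟩
        · rw [h]; exact flip_fix _ _ _ (by simp)
        · rw [h]; exact flip_fix _ _ _ (by simp)
    rw [hWσ, conj2_apply]
    simp only [Equiv.Perm.mul_apply]
    have f3 : flip (fun i => i < K) (rr : Idx K s) = rr := flip_fix _ _ _ (by simp)
    rw [f3, e_flip, e_flip, if_pos (le_refl K), if_pos (le_refl K)]
    simp only [Bool.not_false, Bool.not_true]
    ring
  rw [h1, h2, h3, h4, zero_add]

lemma per_Mk (k : ℕ) (hk : k ≤ K) :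
    per (Mk k k : Idx K s → Idx K s → ℤ)
      = 2 * 4 ^ (K - k) * per (R k (K + 1) : Idx K s → Idx K s → ℤ) := by
  have h : ∀ d, k + d ≤ K → per (Mk k k : Idx K s → Idx K s → ℤ)
      = 4 ^ d * per (Mk k (k + d) : Idx K s → Idx K s → ℤ) := by
    intro d
    induction d with
    | zero => intro _; simp
    | succ d ih =>
      intro hd
      rw [ih (by omega), step k (k + d) (by omega) (by omega), pow_succ]
      ring_nf
  have h1 := h (K - k) (by omega)
  rw [show k + (K - k) = K by omega, laststep k hk] at h1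
  rw [h1]; ring

end Pool.Agent.H946.Per
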