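import Mathlib
import Pool.Agent.H946.PerC

set_option autoImplicit false

namespace Pool.Agent.H946.Per

open Finset Equiv

variable {K s : ℕ}

lemma e_01 (i : ℕ) (t : Bool) (y : Idx K s) : e i t y = 0 ∨ e i t y = 1 := by
  rcases y with ⟨i', t'⟩ | y
  · simp only [e]
    split_ifs
    · exact Or.inr rfl
    · exact Or.inl rfl
  · exact Or.inl rfl

lemma e_disj (i : ℕ) (t : Bool) (y : Idx K s) (h : e i t y = 1) : e (i + 1) t y = 0 := by
  rcases y with ⟨i', t'⟩ | y
  · simp only [e] at h ⊢
    split_ifs at h with h1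
    · rw [if_neg]
      rintro ⟨h2, _⟩
      omega
    · exact absurd h (by norm_num)
  · exact absurd h (by simp [e])

lemma e_sum (i : ℕ) (t : Bool) : ∑ y : Idx K s, e i t y ≤ 1 := by
  by_cases h : i < K + 1
  · have h1 : ∀ y : Idx K s, e i t y = if y = Sum.inl (⟨i, h⟩, t) then 1 else 0 :=
      fun y => e_inl ⟨i, h⟩ t y
    simp_rw [h1]
    simp
  · have h1 : ∀ y : Idx K s, e i t y = 0 := fun y => e_big i (by omega) t y
    simp_rw [h1]
    simp

/-- The places of the entries `-1`. -/
def Z : Idx K s → Idx K s → ℤ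
  | Sum.inl (i, t) => fun y => e (i : ℕ) t y + e ((i : ℕ) + 1) t y
  | Sum.inr _ => fun _ => 0

lemma Z_01 (x y : Idx K s) : Z x y = 0 ∨ Z x y = 1 := by
  rcases x with ⟨i, t⟩ | x
  · simp only [Z]
    rcases e_01 (i : ℕ) t y with h | h
    · rcases e_01 ((i : ℕ) + 1) t y with h' | h'
      · left; rw [h, h']; norm_num
      · right; rw [h, h']; norm_num
    · right; rw [h, e_disj _ _ _ h]; norm_num
  · left; rfl

lemma Z_sum : ∑ x : Idx K s, ∑ y : Idx K s, Z x y ≤ 4 * ((K : ℤ) + 1) := by
  rw [Fintype.sum_sum_type]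
  have h1 : ∑ x : Fin (K + 1) × Bool, ∑ y : Idx K s, Z (Sum.inl x) y
      ≤ ∑ _x : Fin (K + 1) × Bool, (2 : ℤ) := by
    refine Finset.sum_le_sum fun x _ => ?_
    simp only [Z]
    rw [Finset.sum_add_distrib]
    have := e_sum (K := K) (s := s) (x.1 : ℕ) x.2
    have := e_sum (K := K) (s := s) ((x.1 : ℕ) + 1) x.2
    omega
  have h2 : ∑ x : Fin s, ∑ y : Idx K s, Z (Sum.inr x) y = 0 := by
    refine Finset.sum_eq_zero fun x _ => Finset.sum_eq_zero fun y _ => rfl
  rw [h2, add_zero]
  refine h1.trans ?_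
  rw [Finset.sum_const, Finset.card_univ, Fintype.card_prod, Fintype.card_fin, Fintype.card_bool]
  simp only [nsmul_eq_mul]
  push_cast
  linarith

/-- The free indices when the chain rows with index at least `k` are unit rows. -/
def pk (k : ℕ) : Idx K s → Prop
  | Sum.inl (i, _) => (i : ℕ) < k
  | Sum.inr _ => True

instance (k : ℕ) : DecidablePred (pk k : Idx K s → Prop) := fun x => by
  rcases x with ⟨i, t⟩ | x
  · exact inferInstanceAs (Decidable ((i : ℕ) < k))
  · exact inferInstanceAs (Decidable True)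

def embk (k : ℕ) (hk : k ≤ K + 1) :
    (Fin k × Bool) ⊕ Fin s → {x : Idx K s // pk k x}
  | Sum.inl (i, t) => ⟨Sum.inl (Fin.castLE hk i, t), i.2⟩
  | Sum.inr x => ⟨Sum.inr x, trivial⟩

lemma card_pk (k : ℕ) (hk : k ≤ K + 1) :
    Fintype.card {x : Idx K s // pk k x} = 2 * k + s := by
  have hb : Function.Bijective (embk k hk : (Fin k × Bool) ⊕ Fin s → {x : Idx K s // pk k x}) := by
    constructor
    · rintro (⟨i, t⟩ | x) (⟨i', t'⟩ | x') h
      · have h1 := congrArg Subtype.val h
        simp only [embk, Sum.inl.injEq, Prod.mk.injEq, Fin.ext_iff] at h1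
        have h2 : i = i' := Fin.ext h1.1
        rw [h2, h1.2]
      · have h1 := congrArg Subtype.val h
        simp [embk] at h1
      · have h1 := congrArg Subtype.val h
        simp [embk] at h1
      · have h1 := congrArg Subtype.val h
        simp only [embk, Sum.inr.injEq] at h1
        rw [h1]
    · rintro ⟨⟨i, t⟩ | x, hx⟩
      · exact ⟨Sum.inl (⟨(i : ℕ), hx⟩, t), rfl⟩
      · exact ⟨Sum.inr x, rfl⟩
  rw [← Fintype.card_of_bijective hb]
  rw [Fintype.card_sum, Fintype.card_prod, Fintype.card_fin, Fintype.card_bool, Fintype.card_fin]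
  ring

lemma per_R_bounds (k : ℕ) (hk : k ≤ K) (hs : 16 * (K + 1) ≤ s) :
    per (R k (K + 1) : Idx K s → Idx K s → ℤ) ≤ ((2 * k + s).factorial : ℤ) ∧
    ((2 * k + s).factorial : ℤ) ≤ 2 * per (R k (K + 1) : Idx K s → Idx K s → ℤ) := by
  classical
  have h1 : per (R k (K + 1) : Idx K s → Idx K s → ℤ)
      = per (fun x y : {x : Idx K s // pk k x} => 1 - 2 * Z (x : Idx K s) (y : Idx K s)) := by
    rw [per_subtype (pk k) (R k (K + 1))]
    · congr 1
      funext x y
      obtain ⟨x, hx⟩ := x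
      obtain ⟨y, hy⟩ := y
      rcases x with ⟨i, t⟩ | x
      · have hx' : (i : ℕ) < k := hx
        simp only [R, Z]
        rw [if_neg (by omega)]
        simp only [rho]
        ring
      · simp only [R, Z]
        norm_num
    · intro x hx y
      rcases x with ⟨i, t⟩ | x
      · have hx' : ¬ (i : ℕ) < k := hx
        have := i.2
        simp only [R]
        rw [if_pos (by omega), e_inl]
      · exact absurd trivial hx
  have h2 := per_pm (ι := {x : Idx K s // pk k x}) (fun x y => Z (x : Idx K s) (y : Idx K s))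
    (fun x y => Z_01 _ _)
  rw [← h1, card_pk k (by omega)] at h2
  refine ⟨h2.1, ?_⟩
  have h3 : ∑ x : {x : Idx K s // pk k x}, ∑ y : {x : Idx K s // pk k x},
      Z (x : Idx K s) (y : Idx K s) ≤ 4 * ((K : ℤ) + 1) := by
    refine le_trans ?_ (Z_sum (K := K) (s := s))
    have hnn : ∀ x y : Idx K s, 0 ≤ Z x y := by
      intro x y
      rcases Z_01 x y with h | h <;> rw [h] <;> norm_num
    have hsub : ∀ f : Idx K s → ℤ, (∀ x, 0 ≤ f x) →
        ∑ x : {x : Idx K s // pk k x}, f x ≤ ∑ x, f x := by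
      intro f hf
      rw [← Fintype.sum_subtype_add_sum_subtype (pk k) f]
      have : 0 ≤ ∑ x : {x : Idx K s // ¬ pk k x}, f x := Finset.sum_nonneg fun x _ => hf _
      omega
    refine le_trans (Finset.sum_le_sum fun x _ => hsub (fun y => Z (x : Idx K s) y)
      (fun y => hnn _ _)) ?_
    exact hsub (fun x => ∑ y, Z x y) (fun x => Finset.sum_nonneg fun y _ => hnn _ _)
  set m := 2 * k + s with hm
  have hmpos : 0 < m := by omega
  have h4 : (m : ℤ) * ((m - 1).factorial : ℤ) = (m.factorial : ℤ) := by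
    exact_mod_cast Nat.mul_factorial_pred hmpos.ne'
  have h5 : (0 : ℤ) ≤ ((m - 1).factorial : ℤ) := by positivity
  have h6 : (16 : ℤ) * ((K : ℤ) + 1) ≤ m := by
    have : 16 * (K + 1) ≤ m := by omega
    exact_mod_cast this
  have h7 := mul_le_mul_of_nonneg_left h3 h5
  have h8 : (16 : ℤ) * ((K : ℤ) + 1) * ((m - 1).factorial : ℤ) ≤ (m.factorial : ℤ) := by
    rw [← h4]
    exact mul_le_mul_of_nonneg_right h6 h5
  have h9 := h2.2
  nlinarith

/-- The digits. -/
def D (K s : ℕ) (k : ℕ) : ℤ := per (Mk k k : Idx K s → Idx K s → ℤ)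

lemma D_pos (hs : 16 * (K + 1) ≤ s) (k : ℕ) (hk : k ≤ K) : 0 < D K s k := by
  unfold D
  rw [per_Mk k hk]
  have h := (per_R_bounds k hk hs).2
  have h1 : (0 : ℤ) < ((2 * k + s).factorial : ℤ) := by positivity
  have h2 : 0 < per (R k (K + 1) : Idx K s → Idx K s → ℤ) := by linarith
  positivity

lemma D_double (hs : 16 * (K + 1) ≤ s) (k : ℕ) (hk : k < K) :
    2 * D K s k ≤ D K s (k + 1) := by
  unfold D
  rw [per_Mk k hk.le, per_Mk (k + 1) (by omega)]
  have h1 := (per_R_bounds (K := K) (s := s) k hk.le hs).1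
  have h2 := (per_R_bounds (K := K) (s := s) (k + 1) (by omega) hs).2
  have h3 : K - k = (K - (k + 1)) + 1 := by omega
  rw [h3, pow_succ]
  set c : ℤ := 4 ^ (K - (k + 1)) with hc
  have hcpos : 0 < c := by positivity
  have h4 : ((2 * (k + 1) + s).factorial : ℤ)
      = ((2 * k + s : ℕ) + 2 : ℤ) * (((2 * k + s : ℕ) + 1 : ℤ) * ((2 * k + s).factorial : ℤ)) := by
    have : 2 * (k + 1) + s = (2 * k + s) + 1 + 1 := by ring
    rw [this, Nat.factorial_succ, Nat.factorial_succ]
    push_cast
    ring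
  set m : ℕ := 2 * k + s with hm
  have hm16 : (16 : ℤ) ≤ m := by
    have : 16 ≤ m := by omega
    exact_mod_cast this
  have hf : (0 : ℤ) < (m.factorial : ℤ) := by positivity
  rw [h4] at h2
  have h5 : 16 * (m.factorial : ℤ) ≤ ((m : ℤ) + 2) * (((m : ℤ) + 1) * (m.factorial : ℤ)) := by
    have h50 : (16 : ℤ) ≤ ((m : ℤ) + 2) * ((m : ℤ) + 1) := by nlinarith
    have h51 := mul_le_mul_of_nonneg_right h50 hf.le
    linarith
  have h6 : 16 * per (R k (K + 1) : Idx K s → Idx K s → ℤ)
      ≤ 2 * per (R (k + 1) (K + 1) : Idx K s → Idx K s → ℤ) := by linarith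
  have h7 := mul_le_mul_of_nonneg_left h6 hcpos.le
  linarith

/-- Signed sums with superincreasing digits are distinct. -/
lemma signed_inj (d : ℕ → ℤ) (m : ℕ) (h0 : ∀ i < m, 0 < d i)
    (h2 : ∀ i, i + 1 < m → 2 * d i ≤ d (i + 1)) :
    (∀ m' ≤ m, ∀ b b' : Fin m' → Bool,
      ∑ i : Fin m', (if b i then (1 : ℤ) else -1) * d i
        = ∑ i : Fin m', (if b' i then (1 : ℤ) else -1) * d i → b = b') := by
  have hS : ∀ m', m' < m → ∑ i : Fin m', d i < d m' := by
    intro m'
    induction m' with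
    | zero => intro h; simpa using h0 0 h
    | succ m' ih =>
      intro h
      rw [Fin.sum_univ_castSucc]
      have h3 := ih (by omega)
      have h4 := h2 m' h
      simp only [Fin.val_castSucc, Fin.val_last]
      linarith
  have hbd : ∀ m' ≤ m, ∀ b : Fin m' → Bool,
      |∑ i : Fin m', (if b i then (1 : ℤ) else -1) * d i| ≤ ∑ i : Fin m', d i := by
    intro m' hm' b
    refine (Finset.abs_sum_le_sum_abs _ _).trans (Finset.sum_le_sum fun i _ => ?_)
    have hpos := h0 i (lt_of_lt_of_le i.2 hm')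
    rw [abs_mul, abs_of_pos hpos]
    split_ifs <;> simp
  intro m'
  induction m' with
  | zero => intro _ b b' _; funext i; exact i.elim0
  | succ m' ih =>
    intro hm' b b' h
    rw [Fin.sum_univ_castSucc, Fin.sum_univ_castSucc] at h
    simp only [Fin.val_castSucc, Fin.val_last] at h
    have hb1 := abs_le.1 (hbd m' (by omega) (fun i => b i.castSucc))
    have hb2 := abs_le.1 (hbd m' (by omega) (fun i => b' i.castSucc))
    have hlt := hS m' (by omega)
    have hlast : b (Fin.last m') = b' (Fin.last m') := by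
      cases hx : b (Fin.last m') <;> cases hy : b' (Fin.last m')
      · rfl
      · exfalso
        rw [hx, hy] at h
        simp only [Bool.false_eq_true, if_false, if_true] at h
        linarith [hb1.1, hb1.2, hb2.1, hb2.2]
      · exfalso
        rw [hx, hy] at h
        simp only [Bool.false_eq_true, if_false, if_true] at h
        linarith [hb1.1, hb1.2, hb2.1, hb2.2]
      · rfl
    rw [hlast] at h
    have h5 := ih (by omega) (fun i => b i.castSucc) (fun i => b' i.castSucc)
      (add_right_cancel h)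
    funext i
    refine Fin.lastCases hlast (fun j => ?_) i
    exact congrFun h5 j

/-- The sign matrices. -/
def zrow (b : Fin (K + 1) → Bool) : Idx K s → ℤ
  | Sum.inl (i, t) => if b i then (if t then -1 else 1) else (if t then 1 else -1)
  | Sum.inr _ => 1

def A (b : Fin (K + 1) → Bool) : Idx K s → Idx K s → ℤ :=
  Function.update (R 0 0) rr (zrow b)

lemma A_pm (b : Fin (K + 1) → Bool) (x y : Idx K s) : A b x y = 1 ∨ A b x y = -1 := by
  by_cases hx : x = rr
  · subst hx
    rw [A, Function.update_self]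
    rcases y with ⟨i, t⟩ | y
    · simp only [zrow]
      split_ifs <;> simp
    · left; rfl
  · rw [A, Function.update_of_ne hx]
    have h1 : (R 0 0 : Idx K s → Idx K s → ℤ) x y = 1 - 2 * Z x y := by
      rcases x with ⟨i, t⟩ | x
      · simp only [R, Z]
        rw [if_neg (by omega)]
        simp only [rho]
        ring
      · simp only [R, Z]
        norm_num
    rw [h1]
    rcases Z_01 x y with h | h <;> rw [h] <;> norm_num

def z0 : Idx K s → ℤ
  | Sum.inl _ => 0
  | Sum.inr _ => 1

lemma zrow_eq (b : Fin (K + 1) → Bool) (y : Idx K s) :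
    zrow b y = z0 y + ∑ i : Fin (K + 1), (if b i then (1 : ℤ) else -1)
      * (e (i : ℕ) false y - e (i : ℕ) true y) := by
  rcases y with ⟨i', t'⟩ | y
  · rw [Finset.sum_eq_single i']
    · simp only [zrow, z0, e]
      cases t' <;> cases b i' <;> simp
    · intro i _ hi
      have h : ∀ t, (e (i : ℕ) t : Idx K s → ℤ) (Sum.inl (i', t')) = 0 := by
        intro t
        simp only [e]
        rw [if_neg]
        rintro ⟨h1, _⟩
        exact hi (Fin.ext h1.symm)
      rw [h, h]; ring
    · intro h; exact absurd (Finset.mem_univ _) h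
  · have h : ∀ i : Fin (K + 1), ∀ t, (e (i : ℕ) t : Idx K s → ℤ) (Sum.inr y) = 0 := fun _ _ => rfl
    simp only [h, zrow, z0]
    simp

lemma R_diag (k : ℕ) : (R k k : Idx K s → Idx K s → ℤ) = R 0 0 := by
  funext x
  rcases x with ⟨i, t⟩ | x
  · simp only [R]
    rw [if_neg (by omega), if_neg (by omega)]
  · rfl

lemma per_A (b : Fin (K + 1) → Bool) :
    per (A b : Idx K s → Idx K s → ℤ)
      = per (Function.update (R 0 0) rr z0 : Idx K s → Idx K s → ℤ)
        + ∑ i : Fin (K + 1), (if b i then (1 : ℤ) else -1) * D K s i := by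
  have hgen : ∀ z : Idx K s → ℤ, per (Function.update (R 0 0) rr z : Idx K s → Idx K s → ℤ)
      = ∑ σ : Perm (Idx K s), z (σ rr) * ∏ x ∈ univ.erase rr, R 0 0 x (σ x) := by
    intro z
    rw [per_split1 _ rr]
    refine Finset.sum_congr rfl fun σ _ => ?_
    rw [Function.update_self]
    congr 1
    refine Finset.prod_congr rfl fun x hx => ?_
    rw [Function.update_of_ne (Finset.ne_of_mem_erase hx)]
  have hD : ∀ i : ℕ, D K s i = ∑ σ : Perm (Idx K s),
      (e i false (σ rr) - e i true (σ rr)) * ∏ x ∈ univ.erase rr, R 0 0 x (σ x) := by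
    intro i
    rw [← hgen (fun y => e i false y - e i true y)]
    rw [D, Mk, R_diag]
  rw [A, hgen, hgen]
  simp_rw [hD, Finset.mul_sum]
  rw [Finset.sum_comm, ← Finset.sum_add_distrib]
  refine Finset.sum_congr rfl fun σ _ => ?_
  rw [zrow_eq, add_mul, Finset.sum_mul]
  congr 1
  refine Finset.sum_congr rfl fun i _ => ?_
  ring

lemma card_Idx : Fintype.card (Idx K s) = 2 * (K + 1) + s := by
  rw [Fintype.card_sum, Fintype.card_prod, Fintype.card_fin, Fintype.card_bool, Fintype.card_fin]
  ring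

/-- At least `2^(K+1)` values. -/
theorem many_values (K s n : ℕ) (hs : 16 * (K + 1) ≤ s) (hn : n = 2 * (K + 1) + s) :
    2 ^ (K + 1) ≤ Set.ncard {p : ℤ | ∃ A : Matrix (Fin n) (Fin n) ℤ,
        (∀ i j, A i j = 1 ∨ A i j = -1) ∧ A.permanent = p} := by
  classical
  set V : Set ℤ := {p : ℤ | ∃ A : Matrix (Fin n) (Fin n) ℤ,
        (∀ i j, A i j = 1 ∨ A i j = -1) ∧ A.permanent = p} with hV
  have hfin : V.Finite := by
    refine (Set.finite_range (fun B : Fin n → Fin n → Bool =>
      (Matrix.of (fun i j => if B i j then (1 : ℤ) else -1)).permanent)).subset ?_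
    rintro p ⟨M, hM, rfl⟩
    refine ⟨fun i j => decide (M i j = 1), ?_⟩
    have hMM : (Matrix.of (fun i j => if decide (M i j = 1) then (1 : ℤ) else -1)) = M := by
      ext i j
      simp only [Matrix.of_apply, decide_eq_true_eq]
      rcases hM i j with h | h
      · rw [if_pos h, h]
      · rw [if_neg (by rw [h]; norm_num), h]
    simp only
    rw [hMM]
  let E : Idx K s ≃ Fin n := Fintype.equivFinOfCardEq (by rw [card_Idx, hn])
  let φ : (Fin (K + 1) → Bool) → ℤ := fun b => per (A b : Idx K s → Idx K s → ℤ)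
  have hφV : ∀ b, φ b ∈ V := by
    intro b
    refine ⟨Matrix.of (fun i j => A b (E.symm i) (E.symm j)), fun i j => A_pm b _ _, ?_⟩
    rw [permanent_eq_per]
    exact per_reindex E.symm (A b)
  have hinj : Function.Injective φ := by
    intro b b' h
    simp only [φ] at h
    rw [per_A, per_A] at h
    exact signed_inj (D K s) (K + 1) (fun i hi => D_pos hs i (by omega))
      (fun i hi => D_double hs i (by omega)) (K + 1) le_rfl b b' (add_left_cancel h)
  have h1 : (Set.range φ).ncard = 2 ^ (K + 1) := by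
    rw [← Set.image_univ, Set.ncard_image_of_injective _ hinj, Set.ncard_univ,
      Nat.card_eq_fintype_card, Fintype.card_fun, Fintype.card_bool, Fintype.card_fin]
  rw [← h1]
  exact Set.ncard_le_ncard (by rintro _ ⟨b, rfl⟩; exact hφV b) hfin

/-- The main theorem. -/
theorem exponential :
    ∃ c : ℝ, 1 < c ∧ ∃ N : ℕ, ∀ n : ℕ, N ≤ n →
      c ^ n ≤ ((Set.ncard {p : ℤ | ∃ A : Matrix (Fin n) (Fin n) ℤ,
        (∀ i j, A i j = 1 ∨ A i j = -1) ∧ A.permanent = p} : ℕ) : ℝ) := by
  refine ⟨(2 : ℝ) ^ ((1 : ℝ) / 36), Real.one_lt_rpow (by norm_num) (by norm_num), 18, ?_⟩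
  intro n hn
  obtain ⟨K, hK⟩ : ∃ K, n / 18 = K + 1 := ⟨n / 18 - 1, by omega⟩
  have hK1 : 18 * (K + 1) ≤ n := by omega
  have hK2 : n < 18 * (K + 2) := by omega
  have h1 := many_values K (n - 2 * (K + 1)) n (by omega) (by omega)
  have h2 : ((2 : ℝ) ^ ((1 : ℝ) / 36)) ^ n ≤ (2 : ℝ) ^ (K + 1) := by
    rw [← Real.rpow_natCast, ← Real.rpow_mul (by norm_num), ← Real.rpow_natCast]
    refine Real.rpow_le_rpow_of_exponent_le (by norm_num) ?_
    have h3 : (n : ℝ) ≤ 18 * ((K : ℝ) + 2) := by exact_mod_cast hK2.le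
    push_cast
    have : (0 : ℝ) ≤ K := Nat.cast_nonneg K
    nlinarith
  refine h2.trans ?_
  exact_mod_cast h1

end Pool.Agent.H946.Per
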