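import Mathlib

set_option autoImplicit false

namespace Pool.Agent.H946.Pst

open Finset Matrix

section spectral

variable {V : Type*} [Fintype V] [DecidableEq V]

/-- The series evaluates to `-v`. -/
def P (A : Matrix V V ℂ) (t : ℝ) (v : V → ℂ) : Prop :=
  ∀ x, HasSum (fun m : ℕ => ((-(t : ℂ) * Complex.I) ^ m / (m.factorial : ℂ)) * ((A ^ m) *ᵥ v) x) (- v x)

lemma P_add (A : Matrix V V ℂ) (t : ℝ) (v w : V → ℂ) (hv : P A t v) (hw : P A t w) :
    P A t (v + w) := by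
  intro x
  have h := (hv x).add (hw x)
  have e : (- v x + - w x) = -((v + w) x) := by simp [Pi.add_apply]; ring
  rw [← e]
  refine h.congr_fun ?_
  intro m
  rw [Matrix.mulVec_add, Pi.add_apply]
  ring

lemma P_smul (A : Matrix V V ℂ) (t : ℝ) (c : ℂ) (v : V → ℂ) (hv : P A t v) :
    P A t (c • v) := by
  intro x
  have h := (hv x).mul_left c
  have e : c * (- v x) = -((c • v) x) := by simp [Pi.smul_apply]
  rw [← e]
  refine h.congr_fun ?_
  intro m
  rw [Matrix.mulVec_smul, Pi.smul_apply, smul_eq_mul]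
  ring

lemma P_zero (A : Matrix V V ℂ) (t : ℝ) : P A t 0 := by
  intro x
  simp only [Matrix.mulVec_zero, Pi.zero_apply, mul_zero, neg_zero]
  exact hasSum_zero

lemma pow_eig (A : Matrix V V ℂ) (θ : ℂ) (v : V → ℂ) (h : A *ᵥ v = θ • v) (m : ℕ) :
    (A ^ m) *ᵥ v = θ ^ m • v := by
  induction m with
  | zero => simp
  | succ m ih =>
    rw [pow_succ, ← Matrix.mulVec_mulVec, h, Matrix.mulVec_smul, ih, smul_smul]
    congr 1
    ring

lemma P_eig (A : Matrix V V ℂ) (t : ℝ) (θ : ℂ) (v : V → ℂ) (h : A *ᵥ v = θ • v)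
    (hθ : Complex.exp (-(t : ℂ) * Complex.I * θ) = -1) : P A t v := by
  intro x
  have h1 : HasSum (fun m : ℕ => (-(t : ℂ) * Complex.I * θ) ^ m / (m.factorial : ℂ))
      (Complex.exp (-(t : ℂ) * Complex.I * θ)) := by
    rw [Complex.exp_eq_exp_ℂ]
    exact NormedSpace.expSeries_div_hasSum_exp _
  rw [hθ] at h1
  have h2 := h1.mul_right (v x)
  rw [neg_one_mul] at h2
  refine h2.congr_fun ?_
  intro m
  rw [pow_eig A θ v h m, Pi.smul_apply, smul_eq_mul, mul_pow]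
  ring

/-- Vectors which are sums of eigenvectors with eigenvalues `θ j`, `j < m`. -/
def E (A : Matrix V V ℂ) (θ : ℕ → ℂ) (m : ℕ) : Submodule ℂ (V → ℂ) :=
  Submodule.span ℂ {w | ∃ j, j < m ∧ A *ᵥ w = θ j • w}

lemma E_mono (A : Matrix V V ℂ) (θ : ℕ → ℂ) {m m' : ℕ} (h : m ≤ m') : E A θ m ≤ E A θ m' := by
  refine Submodule.span_mono ?_
  rintro w ⟨j, hj, hw⟩
  exact ⟨j, by omega, hw⟩

lemma E_solve (A : Matrix V V ℂ) (θ : ℕ → ℂ) (m : ℕ) (hθ : ∀ j, j < m → θ j ≠ θ m)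
    (z : V → ℂ) (hz : z ∈ E A θ m) : ∃ z' ∈ E A θ m, A *ᵥ z' - θ m • z' = z := by
  refine Submodule.span_induction (p := fun z _ => ∃ z' ∈ E A θ m, A *ᵥ z' - θ m • z' = z)
    ?_ ?_ ?_ ?_ hz
  · rintro w ⟨j, hj, hw⟩
    have hne : θ j - θ m ≠ 0 := sub_ne_zero.2 (hθ j hj)
    refine ⟨(θ j - θ m)⁻¹ • w, Submodule.smul_mem _ _ (Submodule.subset_span ⟨j, hj, hw⟩), ?_⟩
    rw [Matrix.mulVec_smul, hw, smul_comm (θ m), ← smul_sub, ← sub_smul, smul_smul,
      inv_mul_cancel₀ hne, one_smul]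
  · exact ⟨0, Submodule.zero_mem _, by simp⟩
  · rintro x y _ _ ⟨x', hx', hx⟩ ⟨y', hy', hy⟩
    refine ⟨x' + y', Submodule.add_mem _ hx' hy', ?_⟩
    rw [Matrix.mulVec_add, smul_add, ← hx, ← hy]
    abel
  · rintro c x _ ⟨x', hx', hx⟩
    refine ⟨c • x', Submodule.smul_mem _ _ hx', ?_⟩
    rw [Matrix.mulVec_smul, smul_comm (θ m), ← smul_sub, hx]

/-- Bidiagonal action gives sums of eigenvectors. -/
lemma bidiag (A : Matrix V V ℂ) (θ κ : ℕ → ℂ) (v : ℕ → V → ℂ) (hθ : Function.Injective θ)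
    (h0 : A *ᵥ v 0 = θ 0 • v 0)
    (hs : ∀ m, A *ᵥ v (m + 1) = θ (m + 1) • v (m + 1) + κ m • v m) (m : ℕ) :
    v m ∈ E A θ (m + 1) := by
  induction m with
  | zero => exact Submodule.subset_span ⟨0, by omega, h0⟩
  | succ m ih =>
    obtain ⟨z', hz', hz⟩ := E_solve A θ (m + 1) (fun j hj h => by
      have := hθ h; omega) (κ m • v m) (Submodule.smul_mem _ _ ih)
    have h1 : v (m + 1) - z' ∈ E A θ (m + 1 + 1) := by
      refine Submodule.subset_span ⟨m + 1, by omega, ?_⟩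
      rw [Matrix.mulVec_sub, hs m, smul_sub]
      have h2 : A *ᵥ z' = κ m • v m + θ (m + 1) • z' := by rw [← hz]; abel
      rw [h2]
      abel
    have h3 : v (m + 1) = (v (m + 1) - z') + z' := by abel
    rw [h3]
    exact Submodule.add_mem _ h1 (E_mono A θ (by omega) hz')

lemma P_of_E (A : Matrix V V ℂ) (t : ℝ) (θ : ℕ → ℂ) (m : ℕ)
    (hθ : ∀ j, Complex.exp (-(t : ℂ) * Complex.I * θ j) = -1)
    (v : V → ℂ) (hv : v ∈ E A θ m) : P A t v := by
  refine Submodule.span_induction (p := fun z _ => P A t z) ?_ (P_zero A t) ?_ ?_ hv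
  · rintro w ⟨j, _, hw⟩
    exact P_eig A t (θ j) w hw (hθ j)
  · intro x y _ _ hx hy
    exact P_add A t x y hx hy
  · intro c x _ hx
    exact P_smul A t c x hx

/-- Perfect state transfer between twins. -/
lemma transfer (A : Matrix V V ℂ) (t : ℝ) (u v : V) (huv : u ≠ v)
    (h1 : P A t (Pi.single u 1 + Pi.single v 1))
    (h2 : A *ᵥ (Pi.single u 1 - Pi.single v 1 : V → ℂ) = 0) :
    ‖∑' m : ℕ, ((-(t : ℂ) * Complex.I) ^ m / (m.factorial : ℂ)) * (A ^ m) u v‖ = 1 := by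
  have h3 : HasSum (fun m : ℕ => ((-(t : ℂ) * Complex.I) ^ m / (m.factorial : ℂ))
      * ((A ^ m) *ᵥ (Pi.single u 1 - Pi.single v 1 : V → ℂ)) u) 1 := by
    have h4 : (fun m : ℕ => ((-(t : ℂ) * Complex.I) ^ m / (m.factorial : ℂ))
      * ((A ^ m) *ᵥ (Pi.single u 1 - Pi.single v 1 : V → ℂ)) u) = fun m => if m = 0 then 1 else 0 := by
      funext m
      rcases m with _ | m
      · simp [huv]
      · rw [pow_succ A m, ← Matrix.mulVec_mulVec, h2]
        simp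
    rw [h4]
    exact hasSum_ite_eq 0 1
  have h5 := ((h1 u).sub h3).mul_left (1 / 2 : ℂ)
  have h6 : (fun m : ℕ => (1 / 2 : ℂ) * (((-(t : ℂ) * Complex.I) ^ m / (m.factorial : ℂ))
      * ((A ^ m) *ᵥ (Pi.single u 1 + Pi.single v 1 : V → ℂ)) u
      - ((-(t : ℂ) * Complex.I) ^ m / (m.factorial : ℂ))
      * ((A ^ m) *ᵥ (Pi.single u 1 - Pi.single v 1 : V → ℂ)) u))
      = fun m : ℕ => ((-(t : ℂ) * Complex.I) ^ m / (m.factorial : ℂ)) * (A ^ m) u v := by
    funext m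
    have h7 : ((A ^ m) *ᵥ (Pi.single u 1 + Pi.single v 1 : V → ℂ)) u
        - ((A ^ m) *ᵥ (Pi.single u 1 - Pi.single v 1 : V → ℂ)) u = 2 * (A ^ m) u v := by
      rw [Matrix.mulVec_add, Matrix.mulVec_sub]
      simp only [Matrix.mulVec_single_one, Pi.add_apply, Pi.sub_apply, Matrix.col_apply]
      ring
    rw [← mul_sub, h7]
    ring
  rw [h6] at h5
  rw [h5.tsum_eq]
  simp [huv]
  norm_num

end spectral

end Pool.Agent.H946.Pst
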