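import Mathlib
import Pool.Agent.H946.PstA

set_option autoImplicit false

namespace Pool.Agent.H946.Pst

open Finset Matrix

/-- Two twins and `N` cells of `2M` vertices. -/
abbrev Vert (N M : ℕ) := Bool ⊕ (Fin N × Bool × ZMod M)

def cc (N k : ℕ) : ℕ := 2 * k * (N + 1 - k)
def dd (N k : ℕ) : ℕ := 4 * k * (N - k)

variable {N M : ℕ}

/-- Adjacency between vertices of the cells. -/
def adjR (N M : ℕ) (x y : Fin N × Bool × ZMod M) : Prop :=
  ((x.1 : ℕ) = (y.1 : ℕ) ∧ x.2.1 ≠ y.2.1 ∧
    (if x.2.1 then (x.2.2 - y.2.2).val < dd N ((x.1 : ℕ) + 1)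
      else (y.2.2 - x.2.2).val < dd N ((x.1 : ℕ) + 1)))
  ∨ ((x.1 : ℕ) + 1 = (y.1 : ℕ) ∧ x.2.1 = y.2.1 ∧ (y.2.2 - x.2.2).val < cc N ((y.1 : ℕ) + 1))
  ∨ ((y.1 : ℕ) + 1 = (x.1 : ℕ) ∧ x.2.1 = y.2.1 ∧ (x.2.2 - y.2.2).val < cc N ((x.1 : ℕ) + 1))

lemma adjR_symm (x y : Fin N × Bool × ZMod M) (h : adjR N M x y) : adjR N M y x := by
  obtain ⟨i, s, a⟩ := x
  obtain ⟨j, s', b⟩ := y
  rcases h with ⟨h1, h2, h3⟩ | ⟨h1, h2, h3⟩ | ⟨h1, h2, h3⟩
  · left
    simp only at h1 h2 h3 ⊢
    refine ⟨h1.symm, h2.symm, ?_⟩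
    rw [← h1]
    cases s <;> cases s' <;> simp_all
  · right; right
    exact ⟨h1, h2.symm, h3⟩
  · right; left
    exact ⟨h1, h2.symm, h3⟩

lemma adjR_irrefl (x : Fin N × Bool × ZMod M) : ¬ adjR N M x x := by
  rintro (⟨_, h2, _⟩ | ⟨h1, _, _⟩ | ⟨h1, _, _⟩)
  · exact h2 rfl
  · omega
  · omega

/-- The graph. -/
def adjG (N M : ℕ) : Vert N M → Vert N M → Prop
  | Sum.inl _, Sum.inl _ => False
  | Sum.inl _, Sum.inr y => (y.1 : ℕ) = 0
  | Sum.inr x, Sum.inl _ => (x.1 : ℕ) = 0
  | Sum.inr x, Sum.inr y => adjR N M x y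

def GG (N M : ℕ) : SimpleGraph (Vert N M) where
  Adj := adjG N M
  symm := by
    constructor
    rintro (x | x) (y | y) h
    · exact h
    · exact h
    · exact h
    · exact adjR_symm x y h
  loopless := by
    constructor
    rintro (x | x) h
    · exact h
    · exact adjR_irrefl x h

/-- Vectors constant on cells. -/
def VV (N M : ℕ) (g : ℕ → ℂ) : Vert N M → ℂ
  | Sum.inl _ => (N : ℂ) * g 0
  | Sum.inr x => g ((x.1 : ℕ) + 1)

/-- The quotient operator. -/
def SS (N : ℕ) (g : ℕ → ℂ) (k : ℕ) : ℂ :=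
  (cc N k : ℂ) * g (k - 1) + (dd N k : ℂ) * g k + (cc N (k + 1) : ℂ) * g (k + 1)

lemma card_lt [NeZero M] (c : ℕ) (hc : c ≤ M) :
    (Finset.univ.filter (fun z : ZMod M => z.val < c)).card = c := by
  have h1 : (Finset.range c).image (fun q => ((q : ℕ) : ZMod M))
      = Finset.univ.filter (fun z : ZMod M => z.val < c) := by
    ext z
    simp only [Finset.mem_image, Finset.mem_range, Finset.mem_filter, Finset.mem_univ, true_and]
    constructor
    · rintro ⟨q, hq, rfl⟩
      rw [ZMod.val_natCast_of_lt (lt_of_lt_of_le hq hc)]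
      exact hq
    · intro hz
      exact ⟨z.val, hz, ZMod.natCast_zmod_val z⟩
  rw [← h1, Finset.card_image_of_injOn, Finset.card_range]
  intro q hq q' hq' h
  have h2 := congrArg ZMod.val h
  simp only at h2
  rw [ZMod.val_natCast_of_lt (lt_of_lt_of_le (Finset.mem_range.1 (Finset.mem_coe.1 hq)) hc),
    ZMod.val_natCast_of_lt (lt_of_lt_of_le (Finset.mem_range.1 (Finset.mem_coe.1 hq')) hc)] at h2
  exact h2

lemma sum_lt_right [NeZero M] (c : ℕ) (hc : c ≤ M) (a : ZMod M) :
    ∑ b : ZMod M, (if (b - a).val < c then (1 : ℂ) else 0) = c := by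
  have h1 : ∑ b : ZMod M, (if (b - a).val < c then (1 : ℂ) else 0)
      = ∑ z : ZMod M, (if z.val < c then (1 : ℂ) else 0) :=
    Fintype.sum_equiv (Equiv.subRight a) _ _ fun b => rfl
  rw [h1, Finset.sum_boole, card_lt c hc]

lemma sum_lt_left [NeZero M] (c : ℕ) (hc : c ≤ M) (a : ZMod M) :
    ∑ b : ZMod M, (if (a - b).val < c then (1 : ℂ) else 0) = c := by
  have h1 : ∑ b : ZMod M, (if (a - b).val < c then (1 : ℂ) else 0)
      = ∑ z : ZMod M, (if z.val < c then (1 : ℂ) else 0) :=
    Fintype.sum_equiv (Equiv.subLeft a) _ _ fun b => rfl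
  rw [h1, Finset.sum_boole, card_lt c hc]

lemma sum_succ (i : Fin N) (F : ℕ → ℂ) :
    ∑ j : Fin N, (if (i : ℕ) + 1 = (j : ℕ) then F j else 0)
      = if (i : ℕ) + 1 < N then F ((i : ℕ) + 1) else 0 := by
  split_ifs with h
  · rw [Finset.sum_eq_single ⟨(i : ℕ) + 1, h⟩]
    · simp
    · intro j _ hj
      rw [if_neg]
      intro h'
      exact hj (Fin.ext h'.symm)
    · intro h'; exact absurd (Finset.mem_univ _) h'
  · refine Finset.sum_eq_zero fun j _ => ?_
    rw [if_neg]
    have := j.2
    omega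

lemma sum_pred (i : Fin N) (F : ℕ → ℂ) :
    ∑ j : Fin N, (if (j : ℕ) + 1 = (i : ℕ) then F j else 0)
      = if 1 ≤ (i : ℕ) then F ((i : ℕ) - 1) else 0 := by
  split_ifs with h
  · have hi := i.2
    rw [Finset.sum_eq_single ⟨(i : ℕ) - 1, by omega⟩]
    · simp only
      rw [if_pos (by omega)]
    · intro j _ hj
      rw [if_neg]
      intro h'
      refine hj (Fin.ext ?_)
      simp only
      omega
    · intro h'; exact absurd (Finset.mem_univ _) h'
  · refine Finset.sum_eq_zero fun j _ => ?_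
    rw [if_neg]
    omega

lemma sum_same (i : Fin N) (F : ℕ → ℂ) :
    ∑ j : Fin N, (if (i : ℕ) = (j : ℕ) then F j else 0) = F i := by
  rw [Finset.sum_eq_single i]
  · simp
  · intro j _ hj
    rw [if_neg]
    intro h'
    exact hj (Fin.ext h'.symm)
  · intro h'; exact absurd (Finset.mem_univ _) h'

open Classical in
/-- Row sums into the cell `j`. -/
lemma cell_sum [NeZero M] (hc : ∀ k, k ≤ N → cc N k ≤ M) (hd : ∀ k, k ≤ N → dd N k ≤ M)
    (i j : Fin N) (s : Bool) (a : ZMod M) :
    ∑ y : Bool × ZMod M, (if adjR N M (i, s, a) (j, y) then (1 : ℂ) else 0)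
      = (if (i : ℕ) = (j : ℕ) then (dd N ((j : ℕ) + 1) : ℂ) else 0)
        + (if (i : ℕ) + 1 = (j : ℕ) then (cc N ((j : ℕ) + 1) : ℂ) else 0)
        + (if (j : ℕ) + 1 = (i : ℕ) then (cc N ((j : ℕ) + 2) : ℂ) else 0) := by
  rw [Fintype.sum_prod_type, Fintype.sum_bool]
  have hi := i.2
  have hj := j.2
  by_cases h1 : (i : ℕ) = (j : ℕ)
  · rw [if_pos h1, if_neg (by omega), if_neg (by omega), add_zero, add_zero]
    cases s
    · have e1 : ∀ b : ZMod M, adjR N M (i, false, a) (j, true, b)
          ↔ (b - a).val < dd N ((j : ℕ) + 1) := by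
        intro b
        simp only [adjR, h1]
        simp
      have e2 : ∀ b : ZMod M, ¬ adjR N M (i, false, a) (j, false, b) := by
        intro b
        simp only [adjR, h1]
        simp
      simp_rw [e1, if_neg (e2 _)]
      rw [sum_lt_right _ (hd _ (by omega))]
      simp
    · have e1 : ∀ b : ZMod M, adjR N M (i, true, a) (j, false, b)
          ↔ (a - b).val < dd N ((j : ℕ) + 1) := by
        intro b
        simp only [adjR, h1]
        simp
      have e2 : ∀ b : ZMod M, ¬ adjR N M (i, true, a) (j, true, b) := by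
        intro b
        simp only [adjR, h1]
        simp
      simp_rw [e1, if_neg (e2 _)]
      rw [sum_lt_left _ (hd _ (by omega))]
      simp
  · by_cases h2 : (i : ℕ) + 1 = (j : ℕ)
    · rw [if_neg h1, if_pos h2, if_neg (by omega), zero_add, add_zero]
      have h3 : ¬ (j : ℕ) + 1 = (i : ℕ) := by omega
      cases s
      · have e1 : ∀ b : ZMod M, adjR N M (i, false, a) (j, false, b)
            ↔ (b - a).val < cc N ((j : ℕ) + 1) := by
          intro b
          simp only [adjR]
          simp [h1, h2, h3]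
        have e2 : ∀ b : ZMod M, ¬ adjR N M (i, false, a) (j, true, b) := by
          intro b
          simp only [adjR]
          simp [h1]
        simp_rw [e1, if_neg (e2 _)]
        rw [sum_lt_right _ (hc _ (by omega))]
        simp
      · have e1 : ∀ b : ZMod M, adjR N M (i, true, a) (j, true, b)
            ↔ (b - a).val < cc N ((j : ℕ) + 1) := by
          intro b
          simp only [adjR]
          simp [h1, h2, h3]
        have e2 : ∀ b : ZMod M, ¬ adjR N M (i, true, a) (j, false, b) := by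
          intro b
          simp only [adjR]
          simp [h1]
        simp_rw [e1, if_neg (e2 _)]
        rw [sum_lt_right _ (hc _ (by omega))]
        simp
    · by_cases h3 : (j : ℕ) + 1 = (i : ℕ)
      · rw [if_neg h1, if_neg h2, if_pos h3, zero_add, zero_add]
        cases s
        · have e1 : ∀ b : ZMod M, adjR N M (i, false, a) (j, false, b)
              ↔ (a - b).val < cc N ((j : ℕ) + 2) := by
            intro b
            simp only [adjR, ← h3]
            simp
            omega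
          have e2 : ∀ b : ZMod M, ¬ adjR N M (i, false, a) (j, true, b) := by
            intro b
            simp only [adjR]
            simp [h1]
          simp_rw [e1, if_neg (e2 _)]
          rw [sum_lt_left _ (hc _ (by omega))]
          simp
        · have e1 : ∀ b : ZMod M, adjR N M (i, true, a) (j, true, b)
              ↔ (a - b).val < cc N ((j : ℕ) + 2) := by
            intro b
            simp only [adjR, ← h3]
            simp
            omega
          have e2 : ∀ b : ZMod M, ¬ adjR N M (i, true, a) (j, false, b) := by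
            intro b
            simp only [adjR]
            simp [h1]
          simp_rw [e1, if_neg (e2 _)]
          rw [sum_lt_left _ (hc _ (by omega))]
          simp
      · rw [if_neg h1, if_neg h2, if_neg h3]
        have e2 : ∀ y : Bool × ZMod M, ¬ adjR N M (i, s, a) (j, y) := by
          intro y
          simp only [adjR]
          simp [h1, h2, h3]
        simp_rw [if_neg (e2 _)]
        simp

open Classical in
/-- The action of the adjacency matrix. -/
lemma action [NeZero M] (hN : 1 ≤ N) (hM : M = N * N)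
    (hc : ∀ k, k ≤ N → cc N k ≤ M) (hd : ∀ k, k ≤ N → dd N k ≤ M) (g : ℕ → ℂ) :
    ((GG N M).adjMatrix ℂ) *ᵥ (VV N M g) = VV N M (SS N g) := by
  funext x
  have h0 : (((GG N M).adjMatrix ℂ) *ᵥ (VV N M g)) x
      = ∑ z, (if adjG N M x z then (1 : ℂ) else 0) * VV N M g z := by
    simp only [Matrix.mulVec, dotProduct, SimpleGraph.adjMatrix_apply]
    rfl
  rw [h0, Fintype.sum_sum_type]
  rcases x with x | ⟨i, s, a⟩
  · have e1 : ∑ z : Bool, (if adjG N M (Sum.inl x) (Sum.inl z) then (1 : ℂ) else 0)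
        * VV N M g (Sum.inl z) = 0 := by
      refine Finset.sum_eq_zero fun z _ => ?_
      rw [if_neg (by exact id), zero_mul]
    rw [e1, zero_add]
    have e2 : ∑ z : Fin N × Bool × ZMod M, (if adjG N M (Sum.inl x) (Sum.inr z) then (1 : ℂ) else 0)
        * VV N M g (Sum.inr z)
        = ∑ j : Fin N, (if (0 : ℕ) = (j : ℕ) then (2 * (M : ℂ) * g ((j : ℕ) + 1)) else 0) := by
      rw [Fintype.sum_prod_type]
      refine Finset.sum_congr rfl fun j _ => ?_
      have hA : ∀ y : Bool × ZMod M, (if adjG N M (Sum.inl x) (Sum.inr (j, y)) then (1 : ℂ) else 0)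
          * VV N M g (Sum.inr (j, y)) = (if (j : ℕ) = 0 then (1 : ℂ) else 0) * g ((j : ℕ) + 1) := by
        intro y
        by_cases h : (j : ℕ) = 0
        · rw [if_pos (show adjG N M (Sum.inl x) (Sum.inr (j, y)) from h), if_pos h]
          rfl
        · rw [if_neg (show ¬ adjG N M (Sum.inl x) (Sum.inr (j, y)) from h), if_neg h]
          rfl
      simp_rw [hA]
      rw [Finset.sum_const, Finset.card_univ, Fintype.card_prod, Fintype.card_bool, ZMod.card]
      by_cases hj : (j : ℕ) = 0
      · rw [if_pos hj, if_pos hj.symm]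
        simp
      · rw [if_neg hj, if_neg (fun h => hj h.symm)]
        simp
    rw [e2, sum_same ⟨0, hN⟩ (fun j => 2 * (M : ℂ) * g (j + 1))]
    simp only [VV, SS, cc, dd, hM]
    push_cast
    simp
    ring
  · have e1 : ∑ z : Bool, (if adjG N M (Sum.inr (i, s, a)) (Sum.inl z) then (1 : ℂ) else 0)
        * VV N M g (Sum.inl z) = if (i : ℕ) = 0 then 2 * (N : ℂ) * g 0 else 0 := by
      simp only [adjG, VV]
      rw [Fintype.sum_bool]
      split_ifs <;> ring
    have e2 : ∑ z : Fin N × Bool × ZMod M,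
        (if adjG N M (Sum.inr (i, s, a)) (Sum.inr z) then (1 : ℂ) else 0) * VV N M g (Sum.inr z)
        = (dd N ((i : ℕ) + 1) : ℂ) * g ((i : ℕ) + 1)
          + (if (i : ℕ) + 1 < N then (cc N ((i : ℕ) + 2) : ℂ) * g ((i : ℕ) + 2) else 0)
          + (if 1 ≤ (i : ℕ) then (cc N ((i : ℕ) + 1) : ℂ) * g (i : ℕ) else 0) := by
      rw [Fintype.sum_prod_type]
      have e3 : ∀ j : Fin N, ∑ y : Bool × ZMod M,
          (if adjG N M (Sum.inr (i, s, a)) (Sum.inr (j, y)) then (1 : ℂ) else 0)
            * VV N M g (Sum.inr (j, y))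
          = (if (i : ℕ) = (j : ℕ) then (dd N ((j : ℕ) + 1) : ℂ) * g ((j : ℕ) + 1) else 0)
            + (if (i : ℕ) + 1 = (j : ℕ) then (cc N ((j : ℕ) + 1) : ℂ) * g ((j : ℕ) + 1) else 0)
            + (if (j : ℕ) + 1 = (i : ℕ) then (cc N ((j : ℕ) + 2) : ℂ) * g ((j : ℕ) + 1) else 0) := by
        intro j
        have e4 := cell_sum hc hd i j s a
        have hB : ∀ y : Bool × ZMod M,
            (if adjG N M (Sum.inr (i, s, a)) (Sum.inr (j, y)) then (1 : ℂ) else 0)
            * VV N M g (Sum.inr (j, y))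
            = (if adjR N M (i, s, a) (j, y) then (1 : ℂ) else 0) * g ((j : ℕ) + 1) := by
          intro y
          by_cases h : adjR N M (i, s, a) (j, y)
          · rw [if_pos (show adjG N M (Sum.inr (i, s, a)) (Sum.inr (j, y)) from h), if_pos h]
            rfl
          · rw [if_neg (show ¬ adjG N M (Sum.inr (i, s, a)) (Sum.inr (j, y)) from h), if_neg h]
            rfl
        simp_rw [hB]
        rw [← Finset.sum_mul, e4, add_mul, add_mul, ite_mul, ite_mul, ite_mul, zero_mul]
      simp_rw [e3]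
      rw [Finset.sum_add_distrib, Finset.sum_add_distrib,
        sum_same i (fun j => (dd N (j + 1) : ℂ) * g (j + 1)),
        sum_succ i (fun j => (cc N (j + 1) : ℂ) * g (j + 1)),
        sum_pred i (fun j => (cc N (j + 2) : ℂ) * g (j + 1))]
      congr 1
      by_cases h1 : 1 ≤ (i : ℕ)
      · rw [if_pos h1, if_pos h1]
        have h2 : (i : ℕ) - 1 + 2 = (i : ℕ) + 1 := by omega
        have h3 : (i : ℕ) - 1 + 1 = (i : ℕ) := by omega
        rw [h2, h3]
      · rw [if_neg h1, if_neg h1]
    rw [e1, e2]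
    simp only [VV, SS]
    have hi := i.2
    have e5 : (if (i : ℕ) + 1 < N then (cc N ((i : ℕ) + 2) : ℂ) * g ((i : ℕ) + 2) else 0)
        = (cc N ((i : ℕ) + 1 + 1) : ℂ) * g ((i : ℕ) + 1 + 1) := by
      split_ifs with h
      · rfl
      · have : (i : ℕ) + 1 + 1 = N + 1 := by omega
        rw [this]
        simp [cc]
    have e6 : (if (i : ℕ) = 0 then 2 * (N : ℂ) * g 0 else 0)
        + (if 1 ≤ (i : ℕ) then (cc N ((i : ℕ) + 1) : ℂ) * g (i : ℕ) else 0)
        = (cc N ((i : ℕ) + 1) : ℂ) * g ((i : ℕ) + 1 - 1) := by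
      by_cases h : (i : ℕ) = 0
      · rw [if_pos h, if_neg (by omega), h]
        simp [cc]
      · rw [if_neg h, if_pos (by omega)]
        simp
    rw [e5, ← e6]
    ring

end Pool.Agent.H946.Pst
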