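import Mathlib
import Pool.Agent.H946.PstB

set_option autoImplicit false

namespace Pool.Agent.H946.Pst

open Finset Matrix

variable {N M : ℕ}

/-- The basis functions. -/
def beta (m k : ℕ) : ℂ := (-1) ^ k * (k.choose m : ℂ)

def theta (N m : ℕ) : ℂ := 2 * ((m : ℂ) * (m + 1)) - 2 * N

def kappa (N m : ℕ) : ℂ := -2 * ((m : ℂ) + 1) * ((N : ℂ) - m)

lemma cc_cast (k : ℕ) (hk : k ≤ N + 1) : (cc N k : ℂ) = 2 * k * (N + 1 - k) := by
  simp only [cc]
  rw [Nat.cast_mul, Nat.cast_mul, Nat.cast_sub hk]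
  push_cast
  ring

lemma dd_cast (k : ℕ) (hk : k ≤ N) : (dd N k : ℂ) = 4 * k * (N - k) := by
  simp only [dd]
  rw [Nat.cast_mul, Nat.cast_mul, Nat.cast_sub hk]
  push_cast
  ring

lemma SS_zero (k : ℕ) (hk : k ≤ N) : SS N (beta 0) k = theta N 0 * beta 0 k := by
  simp only [SS, beta, theta, Nat.choose_zero_right]
  rw [cc_cast k (by omega), cc_cast (k + 1) (by omega), dd_cast k hk]
  rcases k with _ | k
  · push_cast
    simp
  · rw [Nat.add_sub_cancel]
    push_cast
    rw [pow_succ, pow_succ]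
    ring

lemma SS_succ (m k : ℕ) (hk : k ≤ N) :
    SS N (beta (m + 1)) k = theta N (m + 1) * beta (m + 1) k + kappa N m * beta m k := by
  simp only [SS, beta, theta, kappa]
  rw [cc_cast k (by omega), cc_cast (k + 1) (by omega), dd_cast k hk]
  have h1 : ((m : ℂ) + 1) * ((k.choose (m + 1) : ℕ) : ℂ) = ((k : ℂ) - m) * ((k.choose m : ℕ) : ℂ) := by
    by_cases hmk : m ≤ k
    · have := Nat.choose_succ_right_eq k m
      have h2 : ((k.choose (m + 1) * (m + 1) : ℕ) : ℂ) = ((k.choose m * (k - m) : ℕ) : ℂ) := by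
        exact_mod_cast this
      rw [Nat.cast_mul, Nat.cast_mul, Nat.cast_sub hmk] at h2
      push_cast at h2
      linear_combination h2
    · rw [Nat.choose_eq_zero_of_lt (by omega), Nat.choose_eq_zero_of_lt (by omega)]
      simp
  have h3 : (((k + 1).choose (m + 1) : ℕ) : ℂ) = ((k.choose m : ℕ) : ℂ) + ((k.choose (m + 1) : ℕ) : ℂ) := by
    rw [Nat.choose_succ_succ]
    push_cast
    ring
  rcases k with _ | k
  · rw [h3]
    simp only [Nat.cast_zero, Nat.choose_zero_succ, pow_zero] at h1 ⊢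
    rcases m with _ | m
    · simp
    · simp
  · have h4 : ((k : ℂ) + 1) * ((k.choose (m + 1) : ℕ) : ℂ)
        = ((k : ℂ) + 1 - (m + 1)) * (((k + 1).choose (m + 1) : ℕ) : ℂ) := by
      by_cases hmk : m ≤ k
      · have h5 := Nat.choose_mul_succ_eq k (m + 1)
        have h6 : ((k.choose (m + 1) * (k + 1) : ℕ) : ℂ)
            = (((k + 1).choose (m + 1) * (k + 1 - (m + 1)) : ℕ) : ℂ) := by
          exact_mod_cast h5
        rw [Nat.cast_mul, Nat.cast_mul, Nat.cast_sub (by omega)] at h6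
        push_cast at h6
        linear_combination h6
      · rw [Nat.choose_eq_zero_of_lt (by omega), Nat.choose_eq_zero_of_lt (by omega)]
        simp
    rw [Nat.add_sub_cancel, h3]
    push_cast at h1 ⊢
    rw [pow_succ, pow_succ]
    linear_combination (2 * ((N : ℂ) + 1 - (k + 1)) * (-1) ^ k) * h4
      - ((-1) ^ k * (2 * (N : ℂ) - 2 * (k + 1) - 2 * m - 2)) * h1

open Classical in
lemma VV_add (f g : ℕ → ℂ) : VV N M (fun k => f k + g k) = VV N M f + VV N M g := by
  funext x
  rcases x with x | x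
  · simp only [VV, Pi.add_apply]; ring
  · rfl

lemma VV_smul (c : ℂ) (f : ℕ → ℂ) : VV N M (fun k => c * f k) = c • VV N M f := by
  funext x
  rcases x with x | x
  · simp only [VV, Pi.smul_apply, smul_eq_mul]; ring
  · rfl

lemma VV_congr (f g : ℕ → ℂ) (h : ∀ k, k ≤ N → f k = g k) : VV N M f = VV N M g := by
  funext x
  rcases x with x | x
  · simp only [VV]; rw [h 0 (by omega)]
  · simp only [VV]; rw [h _ (by have := x.1.2; omega)]

lemma VV_sum (s : Finset ℕ) (c : ℕ → ℂ) (f : ℕ → ℕ → ℂ) :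
    VV N M (fun k => ∑ m ∈ s, c m * f m k) = ∑ m ∈ s, c m • VV N M (f m) := by
  funext x
  rw [Finset.sum_apply]
  rcases x with x | x
  · simp only [VV, Pi.smul_apply, smul_eq_mul]
    rw [Finset.mul_sum]
    exact Finset.sum_congr rfl fun m _ => by ring
  · simp only [VV, Pi.smul_apply, smul_eq_mul]

lemma theta_inj : Function.Injective (theta N) := by
  intro a b h
  simp only [theta] at h
  have h1 : (a : ℂ) * (a + 1) = (b : ℂ) * (b + 1) := by linear_combination h / 2
  have h2 : a * (a + 1) = b * (b + 1) := by exact_mod_cast h1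
  rcases lt_trichotomy a b with h3 | h3 | h3
  · nlinarith
  · exact h3
  · nlinarith

lemma theta_exp (hN : Odd N) (m : ℕ) :
    Complex.exp (-((Real.pi / 2 : ℝ) : ℂ) * Complex.I * theta N m) = -1 := by
  obtain ⟨r, hr⟩ := hN
  obtain ⟨q, hq⟩ : ∃ q, m * (m + 1) = q + q := Nat.even_mul_succ_self m
  have h1 : ((m : ℂ) * (m + 1)) = q + q := by exact_mod_cast hq
  have h2 : (N : ℂ) = 2 * r + 1 := by rw [hr]; push_cast; ring
  have h3 : -((Real.pi / 2 : ℝ) : ℂ) * Complex.I * theta N m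
      = Real.pi * Complex.I + ((r : ℤ) - (q : ℤ) : ℤ) * (2 * Real.pi * Complex.I) := by
    rw [theta, h1, h2]
    push_cast
    ring
  rw [h3, Complex.exp_add, Complex.exp_pi_mul_I, Complex.exp_int_mul_two_pi_mul_I, mul_one]

end Pool.Agent.H946.Pst
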