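import Mathlib
import Pool.Agent.H946.PstC

set_option autoImplicit false

namespace Pool.Agent.H946.Pst

open Finset Matrix

variable {N M : ℕ}

lemma cc_le (hN : 3 ≤ N) (k : ℕ) (hk : k ≤ N) : cc N k ≤ N * N := by
  simp only [cc]
  obtain ⟨j, hj⟩ : ∃ j, N + 1 = k + j := ⟨N + 1 - k, by omega⟩
  have h1 : N + 1 - k = j := by omega
  rw [h1]
  rcases k with _ | k
  · simp
  · have hj1 : 1 ≤ j := by omega
    obtain ⟨j', rfl⟩ : ∃ j', j = j' + 1 := ⟨j - 1, by omega⟩
    have hN' : N = k + j' + 1 := by omega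
    rw [hN']
    have h2 : 1 ≤ k ∨ 1 ≤ j' := by omega
    rcases h2 with h2 | h2
    · nlinarith
    · nlinarith

lemma dd_le (k : ℕ) (hk : k ≤ N) : dd N k ≤ N * N := by
  simp only [dd]
  obtain ⟨j, hj⟩ : ∃ j, N = k + j := ⟨N - k, by omega⟩
  have h1 : N - k = j := by omega
  rw [h1, hj]
  rcases le_total k j with h | h
  · obtain ⟨x, rfl⟩ := Nat.exists_eq_add_of_le h
    nlinarith [Nat.zero_le (x * x)]
  · obtain ⟨x, rfl⟩ := Nat.exists_eq_add_of_le h
    nlinarith [Nat.zero_le (x * x)]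

open Classical in
lemma twin_zero [NeZero M] : ((GG N M).adjMatrix ℂ) *ᵥ
    (Pi.single (Sum.inl false) 1 - Pi.single (Sum.inl true) 1 : Vert N M → ℂ) = 0 := by
  rw [Matrix.mulVec_sub, Matrix.mulVec_single_one, Matrix.mulVec_single_one]
  funext x
  have h : (GG N M).Adj x (Sum.inl false) ↔ (GG N M).Adj x (Sum.inl true) := by
    rcases x with x | x
    · exact Iff.rfl
    · exact Iff.rfl
  simp only [Pi.sub_apply, Matrix.col_apply, SimpleGraph.adjMatrix_apply, Pi.zero_apply]
  by_cases h1 : (GG N M).Adj x (Sum.inl false)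
  · rw [if_pos h1, if_pos (h.1 h1), sub_self]
  · rw [if_neg h1, if_neg (fun h2 => h1 (h.2 h2)), sub_self]

lemma delta_eq (k : ℕ) (hk : k ≤ N) :
    (if k = 0 then (1 : ℂ) else 0) = ∑ m ∈ Finset.range (N + 1), (-1) ^ m * beta m k := by
  simp only [beta]
  have h1 : ∑ m ∈ Finset.range (N + 1), (-1 : ℂ) ^ m * ((-1) ^ k * (k.choose m : ℂ))
      = (-1) ^ k * ∑ m ∈ Finset.range (N + 1), (-1 : ℂ) ^ m * (k.choose m : ℂ) := by
    rw [Finset.mul_sum]
    exact Finset.sum_congr rfl fun m _ => by ring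
  rw [h1]
  have h2 : ∑ m ∈ Finset.range (N + 1), (-1 : ℂ) ^ m * (k.choose m : ℂ)
      = ∑ m ∈ Finset.range (k + 1), (-1 : ℂ) ^ m * (k.choose m : ℂ) := by
    symm
    refine Finset.sum_subset (Finset.range_subset_range.2 (by omega)) ?_
    intro m _ hm
    rw [Finset.mem_range, not_lt] at hm
    rw [Nat.choose_eq_zero_of_lt (by omega)]
    simp
  rw [h2]
  have h3 : ∑ m ∈ Finset.range (k + 1), (-1 : ℂ) ^ m * (k.choose m : ℂ)
      = if k = 0 then 1 else 0 := by
    have := Int.alternating_sum_range_choose (n := k)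
    have h4 : ((∑ m ∈ Finset.range (k + 1), ((-1) ^ m * (k.choose m : ℤ) : ℤ) : ℤ) : ℂ)
        = ((if k = 0 then 1 else 0 : ℤ) : ℂ) := by rw [this]
    push_cast at h4
    exact h4
  rw [h3]
  split_ifs with h
  · subst h; simp
  · simp

open Classical in
lemma twin_vec (hN : N ≠ 0) : (Pi.single (Sum.inl false) 1 + Pi.single (Sum.inl true) 1 : Vert N M → ℂ)
    = (N : ℂ)⁻¹ • ∑ m ∈ Finset.range (N + 1), ((-1 : ℂ) ^ m) • VV N M (beta m) := by
  rw [← VV_sum (Finset.range (N + 1)) (fun m => (-1 : ℂ) ^ m) beta]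
  rw [VV_congr _ (fun k => if k = 0 then (1 : ℂ) else 0) (fun k hk => (delta_eq k hk).symm)]
  have hN' : (N : ℂ) ≠ 0 := Nat.cast_ne_zero.2 hN
  funext x
  rcases x with x | x
  · simp only [VV, Pi.smul_apply, smul_eq_mul, Pi.add_apply, if_true]
    rw [mul_one, inv_mul_cancel₀ hN']
    cases x <;> simp
  · simp only [VV, Pi.smul_apply, smul_eq_mul, Pi.add_apply]
    rw [if_neg (by omega)]
    simp

open Classical in
lemma norm_one [NeZero M] (hN : 3 ≤ N) (hodd : Odd N) (hM : M = N * N) :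
    ‖∑' m : ℕ, ((-((Real.pi / 2 : ℝ) : ℂ) * Complex.I) ^ m / (m.factorial : ℂ)) *
      (((GG N M).adjMatrix ℂ) ^ m) (Sum.inl false) (Sum.inl true)‖ = 1 := by
  refine transfer _ _ _ _ (by simp) ?_ twin_zero
  rw [twin_vec (by omega)]
  refine P_smul _ _ _ _ ?_
  have hc : ∀ k, k ≤ N → cc N k ≤ M := fun k hk => hM ▸ cc_le hN k hk
  have hd : ∀ k, k ≤ N → dd N k ≤ M := fun k hk => hM ▸ dd_le k hk
  have hmem : ∀ m, P ((GG N M).adjMatrix ℂ) (Real.pi / 2) (VV N M (beta m)) := by
    intro m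
    refine P_of_E _ _ (theta N) (m + 1) (theta_exp hodd) _ ?_
    refine bidiag _ (theta N) (kappa N) (fun m => VV N M (beta m)) theta_inj ?_ ?_ m
    · rw [action (by omega) hM hc hd, ← VV_smul]
      exact VV_congr _ _ (fun k hk => SS_zero k hk)
    · intro m
      rw [action (by omega) hM hc hd, ← VV_smul, ← VV_smul, ← VV_add]
      exact VV_congr _ _ (fun k hk => SS_succ m k hk)
  have hsum : ∀ s : Finset ℕ, P ((GG N M).adjMatrix ℂ) (Real.pi / 2)
      (∑ m ∈ s, ((-1 : ℂ) ^ m) • VV N M (beta m)) := by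
    intro s
    induction s using Finset.induction_on with
    | empty => rw [Finset.sum_empty]; exact P_zero _ _
    | insert a s ha ih =>
      rw [Finset.sum_insert ha]
      exact P_add _ _ _ _ (P_smul _ _ _ _ (hmem a)) ih
  exact hsum _

/-- The level of a vertex. -/
def level : Vert N M → ℕ
  | Sum.inl _ => 0
  | Sum.inr x => (x.1 : ℕ) + 1

lemma level_adj (x y : Vert N M) (h : (GG N M).Adj x y) : level y ≤ level x + 1 := by
  rcases x with x | x <;> rcases y with y | y
  · exact absurd h id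
  · have h1 : (y.1 : ℕ) = 0 := h
    simp only [level]; omega
  · simp only [level]; omega
  · have h1 : adjR N M x y := h
    simp only [level]
    rcases h1 with ⟨h2, _⟩ | ⟨h2, _⟩ | ⟨h2, _⟩ <;> omega

lemma level_walk {V : Type*} (G : SimpleGraph V) (lv : V → ℕ)
    (h : ∀ x y, G.Adj x y → lv y ≤ lv x + 1) (x y : V) (p : G.Walk x y) :
    lv y ≤ lv x + p.length := by
  induction p with
  | nil => simp
  | cons hadj p ih =>
    rw [SimpleGraph.Walk.length_cons]
    have := h _ _ hadj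
    omega

lemma le_diam {V : Type*} [Finite V] (G : SimpleGraph V) (hG : G.Connected) (lv : V → ℕ)
    (h : ∀ x y, G.Adj x y → lv y ≤ lv x + 1) (x y : V) : lv y ≤ lv x + G.diam := by
  haveI : Nonempty V := ⟨x⟩
  obtain ⟨p, hp⟩ := hG.exists_walk_length_eq_dist x y
  have h1 := level_walk G lv h x y p
  have h2 : G.dist x y ≤ G.diam := SimpleGraph.dist_le_diam (SimpleGraph.connected_iff_ediam_ne_top.1 hG)
  omega

lemma connected [NeZero M] (hN : 1 ≤ N) : (GG N M).Connected := by
  rw [SimpleGraph.connected_iff_exists_forall_reachable]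
  refine ⟨Sum.inl true, ?_⟩
  have h1 : ∀ i : ℕ, ∀ hi : i < N, ∀ s : Bool, ∀ a : ZMod M,
      (GG N M).Reachable (Sum.inl true) (Sum.inr (⟨i, hi⟩, s, a)) := by
    intro i
    induction i with
    | zero =>
      intro hi s a
      refine SimpleGraph.Adj.reachable ?_
      show ((⟨0, hi⟩ : Fin N) : ℕ) = 0
      rfl
    | succ i ih =>
      intro hi s a
      refine (ih (by omega) s a).trans (SimpleGraph.Adj.reachable ?_)
      show adjR N M (⟨i, by omega⟩, s, a) (⟨i + 1, hi⟩, s, a)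
      right; left
      refine ⟨rfl, rfl, ?_⟩
      simp only [sub_self, ZMod.val_zero, cc]
      have : 0 < N + 1 - (i + 1 + 1) := by omega
      positivity
  rintro (w | ⟨i, s, a⟩)
  · cases w
    · refine (h1 0 hN false 0).trans (SimpleGraph.Adj.reachable ?_)
      show ((⟨0, hN⟩ : Fin N) : ℕ) = 0
      rfl
    · exact SimpleGraph.Reachable.refl _
  · exact h1 i i.2 s a

lemma submatrix_pow {V W : Type*} [Fintype V] [DecidableEq V] [Fintype W] [DecidableEq W]
    (A : Matrix V V ℂ) (f : W ≃ V) (m : ℕ) : (A.submatrix f f) ^ m = (A ^ m).submatrix f f := by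
  induction m with
  | zero => simp
  | succ m ih => rw [pow_succ, pow_succ, ih, Matrix.submatrix_mul_equiv]

theorem main :
    ∃ C k : ℕ, ∀ N : ℕ, ∃ (n : ℕ) (G : SimpleGraph (Fin n)) (_ : DecidableRel G.Adj),
      N < n ∧ G.Connected ∧ n ≤ C * G.diam ^ k ∧
      ∃ (u v : Fin n) (t : ℝ), u ≠ v ∧
        ‖∑' m : ℕ, ((-(t : ℂ) * Complex.I) ^ m / (m.factorial : ℂ)) *
            ((G.adjMatrix ℂ) ^ m) u v‖ = 1 := by
  classical
  refine ⟨4, 3, fun N0 => ?_⟩
  set N : ℕ := 2 * N0 + 3 with hN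
  haveI : NeZero (N * N) := ⟨by positivity⟩
  have hcard : Fintype.card (Vert N (N * N)) = 2 + N * (2 * (N * N)) := by
    rw [Fintype.card_sum, Fintype.card_bool, Fintype.card_prod, Fintype.card_prod,
      Fintype.card_bool, Fintype.card_fin, ZMod.card]
  let f : Fin (2 + N * (2 * (N * N))) ≃ Vert N (N * N) :=
    (Fintype.equivFinOfCardEq hcard).symm
  let G : SimpleGraph (Fin (2 + N * (2 * (N * N)))) := (GG N (N * N)).comap f
  have hconn : G.Connected :=
    (SimpleGraph.Iso.comap f (GG N (N * N))).connected_iff.2 (connected (by omega))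
  have hdiam : N ≤ G.diam := by
    have h1 := le_diam G hconn (fun x => level (f x)) (fun x y h => level_adj _ _ h)
      (f.symm (Sum.inl true)) (f.symm (Sum.inr (⟨N - 1, by omega⟩, true, 0)))
    simp only [Equiv.apply_symm_apply, level] at h1
    omega
  refine ⟨_, G, inferInstance, ?_, hconn, ?_, f.symm (Sum.inl false), f.symm (Sum.inl true),
    Real.pi / 2, ?_, ?_⟩
  · have : N ≤ N * (2 * (N * N)) := Nat.le_mul_of_pos_right _ (by positivity)
    omega
  · have h1 : N ^ 3 ≤ G.diam ^ 3 := Nat.pow_le_pow_left hdiam 3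
    have h2 : 1 ≤ N ^ 3 := Nat.one_le_pow _ _ (by omega)
    have h3 : N * (2 * (N * N)) = 2 * N ^ 3 := by ring
    omega
  · intro h
    have := f.symm.injective h
    simp at this
  · have h1 := norm_one (N := N) (M := N * N) (by omega) ⟨N0 + 1, by omega⟩ rfl
    rw [← h1]
    congr 1
    refine tsum_congr fun m => ?_
    congr 1
    have h2 : (G.adjMatrix ℂ) = ((GG N (N * N)).adjMatrix ℂ).submatrix f f := by
      ext i j
      simp only [SimpleGraph.adjMatrix_apply, Matrix.submatrix_apply]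
      rfl
    rw [h2, submatrix_pow, Matrix.submatrix_apply, Equiv.apply_symm_apply, Equiv.apply_symm_apply]

end Pool.Agent.H946.Pst
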