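import Pool.Agent.H666.TK.SpecB

/-!
# The main part of `QQ` injects into `PP (k + 1)` (task TK B6 of helper666, written by helper946)
-/

set_option autoImplicit false

open Finset
open scoped Classical

namespace Pool.Agent.H946.TK

open Pool.Agent.H666.TK

theorem t_q8 : S_q8 := by
  intro V _ _ H B k
  refine card_le_card_of_injOn
    (fun p => (insert p.2.2.2.2.1 p.1, p.2.1, p.2.2.1, p.2.2.2.1, p.2.2.2.2.2)) ?_ ?_
  · rintro ⟨R, a, b, x, c, z⟩ hp
    rw [mem_coe, mem_filter, QQ, mem_filter] at hp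
    obtain ⟨⟨-, hR, L1, L2⟩, hca, hcb, n1, n2, n3, n4, n5⟩ := hp
    dsimp only at hR L1 L2 hca hcb n1 n2 n3 n4 n5
    obtain ⟨⟨tab, tax, tbx, tm⟩, c1, c2, c3⟩ := L1
    obtain ⟨⟨scz, scx, szx, sm⟩, -, -, -⟩ := L2
    have ca : NA H R c a := NA_symm ((NA_or_AD (NA_left tab) (NA_left scx) (Ne.symm hca)).resolve_right n1)
    have cb : NA H R c b := NA_symm ((NA_or_AD (NA_left tbx) (NA_left scx) (Ne.symm hcb)).resolve_right n2)
    have m1 : ({c, a, b} : Finset V) ∈ H := by
      by_contra h
      exact n3 ⟨ca, cb, tab, h⟩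
    have m2 : ({c, a, x} : Finset V) ∈ H := by
      by_contra h
      exact n4 ⟨ca, scx, tax, h⟩
    have m3 : ({c, b, x} : Finset V) ∈ H := by
      by_contra h
      exact n5 ⟨cb, scx, tbx, h⟩
    have hsub : R ⊆ insert c R := subset_insert _ _
    rw [mem_coe, PP, mem_filter]
    refine ⟨mem_univ _, Cs_insert hR (NA_left scx), ⟨⟨?_, ?_, ?_, tm⟩, ?_, ?_, ?_⟩, ?_⟩
    · exact (NA_insert_iff ca cb tab).2 m1
    · exact (NA_insert_iff ca scx tax).2 m2
    · exact (NA_insert_iff cb scx tbx).2 m3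
    · exact (cd_mono hsub).trans_lt c1
    · exact (cd_mono hsub).trans_lt c2
    · exact (cd_mono hsub).trans_lt c3
    · refine AD_insert_of_missing scx scz (NA_ne szx).symm ?_
      have e1 : ({c, x, z} : Finset V) = {c, z, x} := by
        rw [Finset.pair_comm x z]
      rw [e1]
      exact sm
  · rintro ⟨R, a, b, x, c, z⟩ hp ⟨R', a', b', x', c', z'⟩ hp' he
    rw [mem_coe, mem_filter, QQ, mem_filter] at hp hp'
    obtain ⟨⟨-, -, -, L2⟩, -⟩ := hp
    obtain ⟨⟨-, -, -, L2'⟩, -⟩ := hp'
    dsimp only at L2 L2' he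
    rw [Prod.mk.injEq, Prod.mk.injEq, Prod.mk.injEq, Prod.mk.injEq] at he
    obtain ⟨h1, rfl, rfl, rfl, rfl⟩ := he
    obtain ⟨⟨-, scx, szx, -⟩, -⟩ := L2
    obtain ⟨⟨scz', scx', -, sm'⟩, -⟩ := L2'
    have hcc : c = c' := by
      by_contra hne
      have hc' : c' ∈ R := by
        have : c' ∈ insert c R := by
          rw [h1]
          exact mem_insert_self _ _
        rw [mem_insert] at this
        exact this.resolve_left (Ne.symm hne)
      apply sm'
      refine szx.2.2.2 _ ?_ ?_
      · intro y hy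
        simp only [mem_insert, mem_singleton] at hy ⊢
        rcases hy with rfl | rfl | rfl
        · exact Or.inr (Or.inr hc')
        · exact Or.inl rfl
        · exact Or.inr (Or.inl rfl)
      · rw [card_insert_of_notMem, card_insert_of_notMem, card_singleton]
        · simpa using NA_ne szx
        · simp [NA_ne scz', NA_ne scx']
    subst hcc
    have hRR : R = R' := by
      rw [← erase_insert scx.1, h1, erase_insert scx'.1]
    rw [hRR]

end Pool.Agent.H946.TK
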